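import Pool.Agent.Helper923.HMertens

/-!
Bounds of Mertens for arbitrary finite sets of primes.
-/

set_option autoImplicit false

namespace Pool.Agent.Y835.SB

open Finset

/-- `∑ 1/p ≤ log log z + C` -/
theorem sum_inv_le : ∃ C : ℝ, 0 ≤ C ∧ ∀ z : ℕ, 2 ≤ z → ∀ P : Finset ℕ,
    (∀ p ∈ P, p.Prime ∧ p ≤ z) → ∑ p ∈ P, 1 / (p : ℝ) ≤ Real.log (Real.log z) + C := by
  obtain ⟨C, hC0, hC⟩ := Pool.Agent.Helper923.HMertens.mertens_ratio
  have hl2 : 0 < Real.log 2 := Real.log_pos (by norm_num)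
  refine ⟨|Real.log (Real.log 2)| + C / Real.log 2 + 1, by positivity, fun z hz P hP => ?_⟩
  have h1 := hC 2 z le_rfl hz
  have hsub : P ⊆ insert 2 ((Ioc 2 z).filter Nat.Prime) := by
    intro p hp
    obtain ⟨h2, h3⟩ := hP p hp
    rw [mem_insert, mem_filter, mem_Ioc]
    have := h2.two_le
    by_cases h4 : p = 2
    · exact Or.inl h4
    · exact Or.inr ⟨⟨by omega, h3⟩, h2⟩
  have h2 : ∑ p ∈ P, 1 / (p : ℝ) ≤ 1 / 2 + ∑ p ∈ (Ioc 2 z).filter Nat.Prime, 1 / (p : ℝ) := by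
    refine (sum_le_sum_of_subset_of_nonneg hsub fun _ _ _ => by positivity).trans ?_
    rw [sum_insert (by simp)]
    norm_num
  have hz1 : (1 : ℝ) < z := by exact_mod_cast (by omega : 1 < z)
  have hlz : 0 < Real.log z := Real.log_pos hz1
  have h3 : Real.log (Real.log z / Real.log 2) = Real.log (Real.log z) - Real.log (Real.log 2) :=
    Real.log_div hlz.ne' hl2.ne'
  have h4 := (abs_le.1 h1).2
  have h5 : ((2 : ℕ) : ℝ) = 2 := by norm_num
  rw [h5, h3] at h4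
  have h6 := neg_abs_le (Real.log (Real.log 2))
  linarith

theorem sum_tele (P : Finset ℕ) (hP : ∀ p ∈ P, 2 ≤ p) :
    ∑ p ∈ P, 1 / ((p : ℝ) * (p - 1)) ≤ 1 := by
  have h0 : ∀ m : ℕ, 1 ≤ m → ∑ n ∈ Icc 2 m, 1 / ((n : ℝ) * (n - 1)) = 1 - 1 / (m : ℝ) := by
    intro m hm
    induction m, hm using Nat.le_induction with
    | base => simp
    | succ m hm ih =>
      rw [Finset.sum_Icc_succ_top (by omega : 2 ≤ m + 1), ih]
      have hm0 : (m : ℝ) ≠ 0 := by exact_mod_cast (by omega : m ≠ 0)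
      have hm1 : (m : ℝ) + 1 ≠ 0 := by positivity
      push_cast
      rw [add_sub_cancel_right]
      field_simp
      ring
  have h1 : P ⊆ Icc 2 (P.sup id + 1) := by
    intro p hp
    rw [mem_Icc]
    have : p ≤ P.sup id := le_sup (f := id) hp
    exact ⟨hP p hp, by omega⟩
  have h2 : ∑ p ∈ P, 1 / ((p : ℝ) * (p - 1)) ≤
      ∑ n ∈ Icc 2 (P.sup id + 1), 1 / ((n : ℝ) * (n - 1)) := by
    refine sum_le_sum_of_subset_of_nonneg h1 fun n hn _ => ?_
    rw [mem_Icc] at hn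
    have : (2 : ℝ) ≤ n := by exact_mod_cast hn.1
    have : 0 ≤ (n : ℝ) * (n - 1) := by nlinarith
    positivity
  refine h2.trans ?_
  rw [h0 _ (by omega)]
  have : (0 : ℝ) ≤ 1 / ((P.sup id + 1 : ℕ) : ℝ) := by positivity
  linarith

/-- `∏ (1 - 1/p) ≥ c / log z` -/
theorem prod_ge : ∃ c : ℝ, 0 < c ∧ ∀ z : ℕ, 2 ≤ z → ∀ P : Finset ℕ,
    (∀ p ∈ P, p.Prime ∧ p ≤ z) → c / Real.log z ≤ ∏ p ∈ P, (1 - 1 / (p : ℝ)) := by
  obtain ⟨C, hC0, hC⟩ := sum_inv_le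
  refine ⟨Real.exp (-(C + 1)), Real.exp_pos _, fun z hz P hP => ?_⟩
  have hz1 : (1 : ℝ) < z := by exact_mod_cast (by omega : 1 < z)
  have hlz : 0 < Real.log z := Real.log_pos hz1
  have h1 : ∀ p ∈ P, Real.exp (-(1 / (p : ℝ) + 1 / ((p : ℝ) * (p - 1)))) ≤ 1 - 1 / (p : ℝ) := by
    intro p hp
    have hp2 : (2 : ℝ) ≤ p := by exact_mod_cast (hP p hp).1.two_le
    have hp1 : (0 : ℝ) < p - 1 := by linarith
    have hp0 : (0 : ℝ) < p := by linarith
    have e1 : 1 / (p : ℝ) + 1 / ((p : ℝ) * (p - 1)) = 1 / ((p : ℝ) - 1) := by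
      field_simp
      ring
    rw [e1, Real.exp_neg]
    have h2 : 1 + 1 / ((p : ℝ) - 1) ≤ Real.exp (1 / ((p : ℝ) - 1)) := by
      have := Real.add_one_le_exp (1 / ((p : ℝ) - 1))
      linarith
    have h3 : 1 - 1 / (p : ℝ) = (1 + 1 / ((p : ℝ) - 1))⁻¹ := by
      field_simp
      ring
    rw [h3]
    exact inv_anti₀ (by positivity) h2
  have h2 : Real.exp (-(∑ p ∈ P, 1 / (p : ℝ) + ∑ p ∈ P, 1 / ((p : ℝ) * (p - 1)))) ≤
      ∏ p ∈ P, (1 - 1 / (p : ℝ)) := by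
    rw [← sum_add_distrib, ← sum_neg_distrib, Real.exp_sum]
    exact prod_le_prod (fun _ _ => (Real.exp_pos _).le) h1
  refine le_trans ?_ h2
  have h3 := hC z hz P hP
  have h4 := sum_tele P fun p hp => (hP p hp).1.two_le
  have h5 : Real.exp (-(C + 1)) / Real.log z = Real.exp (-(Real.log (Real.log z) + C + 1)) := by
    have e : -(Real.log (Real.log z) + C + 1) = -(C + 1) - Real.log (Real.log z) := by ring
    rw [e, Real.exp_sub, Real.exp_log hlz]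
  rw [h5]
  exact Real.exp_le_exp.2 (by linarith)

end Pool.Agent.Y835.SB
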