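import Pool.Agent.Y835.SB.Lin2

/-!
The lower bound of the linear sieve for arbitrary sets of primes.
-/

set_option autoImplicit false

namespace Pool.Agent.Y835.SB

open Finset

open Classical in
/-- reciprocals of the integers free of the primes of `P` -/
theorem free_sum (X : ℕ) (P : Finset ℕ) : (∀ p ∈ P, p.Prime) →
    (∏ p ∈ P, (1 - 1 / (p : ℝ))) * ∑ m ∈ Icc 1 X, 1 / (m : ℝ) ≤
      ∑ m ∈ (Icc 1 X).filter (fun m => ∀ p ∈ P, ¬ p ∣ m), 1 / (m : ℝ) := by
  induction P using Finset.induction_on with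
  | empty =>
    intro _
    simp
  | insert p P hpP ih =>
    intro h
    have hp := h p (mem_insert_self p P)
    have ih1 := ih fun q hq => h q (mem_insert_of_mem hq)
    have hp2 : (2 : ℝ) ≤ p := by exact_mod_cast hp.two_le
    have hp0 : (0 : ℝ) < p := by linarith
    rw [prod_insert hpP, mul_assoc]
    have h1 : 0 ≤ 1 - 1 / (p : ℝ) := by
      rw [sub_nonneg, div_le_one hp0]; linarith
    refine (mul_le_mul_of_nonneg_left ih1 h1).trans ?_
    set S := (Icc 1 X).filter (fun m => ∀ q ∈ P, ¬ q ∣ m) with hS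
    have h2 : (Icc 1 X).filter (fun m => ∀ q ∈ insert p P, ¬ q ∣ m) = S.filter (fun m => ¬ p ∣ m) := by
      rw [hS, filter_filter]
      refine filter_congr fun m _ => ?_
      constructor
      · intro h3
        exact ⟨fun q hq => h3 q (mem_insert_of_mem hq), h3 p (mem_insert_self p P)⟩
      · rintro ⟨h3, h4⟩ q hq
        rcases mem_insert.1 hq with h5 | h5
        · rw [h5]; exact h4
        · exact h3 q h5
    have h3 := sum_filter_add_sum_filter_not S (fun m => p ∣ m) (fun m => 1 / (m : ℝ))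
    have h4 : ∑ m ∈ S.filter (fun m => p ∣ m), 1 / (m : ℝ) ≤ 1 / (p : ℝ) * ∑ m ∈ S, 1 / (m : ℝ) := by
      have h5 : ∑ m ∈ S.filter (fun m => p ∣ m), 1 / (m : ℝ) =
          1 / (p : ℝ) * ∑ k ∈ (S.filter (fun m => p ∣ m)).image (fun m => m / p), 1 / (k : ℝ) := by
        rw [sum_image, mul_sum]
        · refine sum_congr rfl fun m hm => ?_
          obtain ⟨c, hc⟩ := (mem_filter.1 hm).2
          rw [hc, Nat.mul_div_cancel_left c hp.pos]
          push_cast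
          rw [one_div_mul_one_div]
        · intro m hm m' hm' h6
          obtain ⟨c, hc⟩ := (mem_filter.1 (mem_coe.1 hm)).2
          obtain ⟨c', hc'⟩ := (mem_filter.1 (mem_coe.1 hm')).2
          simp only at h6
          rw [hc, hc', Nat.mul_div_cancel_left c hp.pos, Nat.mul_div_cancel_left c' hp.pos] at h6
          rw [hc, hc', h6]
      rw [h5]
      refine mul_le_mul_of_nonneg_left ?_ (by positivity)
      refine sum_le_sum_of_subset_of_nonneg ?_ fun _ _ _ => by positivity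
      intro k hk
      rw [mem_image] at hk
      obtain ⟨m, hm, rfl⟩ := hk
      rw [mem_filter, hS, mem_filter, mem_Icc] at hm
      obtain ⟨⟨⟨h6, h7⟩, h8⟩, c, hc⟩ := hm
      have hmc : m / p = c := by rw [hc]; exact Nat.mul_div_cancel_left c hp.pos
      rw [hmc, hS, mem_filter, mem_Icc]
      have hc0 : c ≠ 0 := by
        rintro rfl
        omega
      refine ⟨⟨Nat.pos_of_ne_zero hc0, ?_⟩, fun q hq h9 => h8 q hq (hc ▸ h9.mul_left p)⟩
      calc c ≤ p * c := Nat.le_mul_of_pos_left c hp.pos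
        _ = m := hc.symm
        _ ≤ X := h7
    rw [h2]
    linarith

open Classical in
theorem sub_low (ε : ℝ) (hε : 0 < ε) (hε1 : ε ≤ 1) : ∃ c : ℝ, 0 < c ∧ ∃ Y0 : ℕ, ∀ Y : ℕ, Y0 ≤ Y →
    ∀ (n : ℕ) (P : Finset ℕ), (∀ p ∈ P, p.Prime ∧ (p : ℝ) ≤ (Y : ℝ) ^ (1 / (2 + ε))) →
    c * (Y * ∏ p ∈ P, (1 - 1 / (p : ℝ))) ≤
      (((Icc 1 Y).filter (fun h => ∀ p ∈ P, ¬ p ∣ n + h)).card : ℝ) := by
  set ζ : ℝ := 1 / (2 + ε / 2) with hζ
  set η : ℝ := ε / (4 * (2 + ε)) with hη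
  have hη0 : 0 < η := by positivity
  have hζ1 : 1 / 4 ≤ ζ := by
    rw [hζ]
    exact one_div_le_one_div_of_le (by positivity) (by linarith)
  have hζ2 : ζ < 1 / 2 := by
    rw [hζ]
    exact one_div_lt_one_div_of_lt (by norm_num) (by linarith)
  have hζ0 : 0 < ζ := by linarith
  obtain ⟨c, hc, Y1, H⟩ := lin_low ζ hζ1 hζ2
  have hη1 : η ≤ 1 / (2 + ε) := by
    rw [hη, div_le_div_iff₀ (by positivity) (by positivity)]
    nlinarith
  have hη2 : η < 1 := by
    have : 1 / (2 + ε) < 1 := by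
      rw [div_lt_one (by positivity)]; linarith
    linarith
  set κ : ℝ := (1 - η) * ζ - 1 / (2 + ε) with hκ
  have hκ0 : 0 < κ := by
    rw [hκ, hη, hζ]
    have e : (1 - ε / (4 * (2 + ε))) * (1 / (2 + ε / 2)) - 1 / (2 + ε) =
        (ε / 4) / ((2 + ε) * (2 + ε / 2)) := by
      field_simp
      ring
    rw [e]
    positivity
  have hev1 : ∀ᶠ N : ℕ in Filter.atTop, 2 * (Y1 : ℝ) + 2 ≤ (N : ℝ) ^ (1 - η) :=
    ((tendsto_rpow_atTop (by linarith)).comp tendsto_natCast_atTop_atTop).eventually_ge_atTop _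
  have hev2 : ∀ᶠ N : ℕ in Filter.atTop, 2 < (N : ℝ) ^ κ :=
    ((tendsto_rpow_atTop hκ0).comp tendsto_natCast_atTop_atTop).eventually_gt_atTop _
  obtain ⟨N2, hN2⟩ := Filter.eventually_atTop.1 (hev1.and hev2)
  refine ⟨c * η / 2, by positivity, max N2 2, fun Y hY n P hP => ?_⟩
  have hYN2 : N2 ≤ Y := (le_max_left _ _).trans hY
  have hY2 : 2 ≤ Y := (le_max_right _ _).trans hY
  obtain ⟨hL1, hL2⟩ := hN2 Y hYN2
  have hY1 : (1 : ℝ) < Y := by exact_mod_cast (by omega : 1 < Y)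
  have hY0 : (0 : ℝ) < Y := by linarith
  have hlY : 0 < Real.log Y := Real.log_pos hY1
  set X : ℕ := ⌊(Y : ℝ) ^ η⌋₊ with hX
  set Ms : Finset ℕ := (Icc 1 X).filter (fun m => ∀ p ∈ P, ¬ p ∣ m) with hMs
  have hm : ∀ m ∈ Ms, 1 ≤ m ∧ (m : ℝ) ≤ (Y : ℝ) ^ η ∧ ∀ p ∈ P, ¬ p ∣ m := by
    intro m hm
    rw [hMs, mem_filter, mem_Icc] at hm
    exact ⟨hm.1.1, (Nat.le_floor_iff (by positivity)).1 hm.1.2, hm.2⟩
  have hq : ∀ m ∈ Ms, (Y : ℝ) ^ (1 - η) ≤ (Y : ℝ) / m := by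
    intro m hmm
    obtain ⟨h1, h2, _⟩ := hm m hmm
    have hm0 : (0 : ℝ) < m := by exact_mod_cast h1
    rw [Real.rpow_sub hY0, Real.rpow_one]
    exact div_le_div_of_nonneg_left hY0.le hm0 h2
  have hLm : ∀ m ∈ Ms, (1 / 2 : ℝ) * ((Y : ℝ) / m) ≤ ((Y / m : ℕ) : ℝ) := by
    intro m hmm
    obtain ⟨h1, h2, _⟩ := hm m hmm
    have h3 := hq m hmm
    have h4 : (Y : ℝ) / m - 1 < ((Y / m : ℕ) : ℝ) := by
      have := Nat.sub_one_lt_floor ((Y : ℝ) / m)
      rwa [Nat.floor_div_natCast, Nat.floor_natCast] at this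
    have hY1' : (0 : ℝ) ≤ Y1 := Nat.cast_nonneg _
    linarith
  have hLb : ∀ m ∈ Ms, (Y : ℝ) ^ (1 / (2 + ε)) < ((Y / m : ℕ) : ℝ) ^ ζ := by
    intro m hmm
    have h3 := hq m hmm
    have h4 := hLm m hmm
    have h5 : (Y : ℝ) ^ (1 - η) / 2 ≤ ((Y / m : ℕ) : ℝ) := by linarith
    have h6 : ((Y : ℝ) ^ (1 - η) / 2) ^ ζ ≤ ((Y / m : ℕ) : ℝ) ^ ζ :=
      Real.rpow_le_rpow (by positivity) h5 hζ0.le
    refine lt_of_lt_of_le ?_ h6
    rw [Real.div_rpow (by positivity) (by norm_num), ← Real.rpow_mul hY0.le,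
      lt_div_iff₀ (by positivity)]
    have h7 : (2 : ℝ) ^ ζ ≤ 2 := by
      calc (2 : ℝ) ^ ζ ≤ (2 : ℝ) ^ (1 : ℝ) :=
            Real.rpow_le_rpow_of_exponent_le (by norm_num) (by linarith)
        _ = 2 := Real.rpow_one _
    have h8 : (Y : ℝ) ^ ((1 - η) * ζ) = (Y : ℝ) ^ (1 / (2 + ε)) * (Y : ℝ) ^ κ := by
      rw [← Real.rpow_add hY0, hκ]
      congr 1
      ring
    rw [h8]
    have h9 : 0 < (Y : ℝ) ^ (1 / (2 + ε)) := by positivity
    nlinarith
  have hYm : ∀ m ∈ Ms, Y1 ≤ Y / m := by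
    intro m hmm
    have h3 := hq m hmm
    have h4 := hLm m hmm
    have h5 : (Y1 : ℝ) ≤ ((Y / m : ℕ) : ℝ) := by linarith
    exact_mod_cast h5
  set G : ℕ → Finset ℕ := fun m => (Icc 1 (Y / m)).filter
    (fun j => ∀ p : ℕ, p.Prime → (p : ℝ) < ((Y / m : ℕ) : ℝ) ^ ζ → ¬ p ∣ n / m + j) with hG
  -- the injection
  have hcard : ((Ms.sigma G).card : ℝ) ≤
      (((Icc 1 Y).filter (fun h => ∀ p ∈ P, ¬ p ∣ n + h)).card : ℝ) := by
    have hpre : ∀ x ∈ Ms.sigma G, x.1 ∈ Ms ∧ 1 ≤ x.2 ∧ x.2 ≤ Y / x.1 ∧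
        (∀ p : ℕ, p.Prime → (p : ℝ) < ((Y / x.1 : ℕ) : ℝ) ^ ζ → ¬ p ∣ n / x.1 + x.2) := by
      intro x hx
      have h0 := mem_sigma.1 hx
      have h1 := mem_filter.1 h0.2
      have h2 := mem_Icc.1 h1.1
      exact ⟨h0.1, h2.1, h2.2, h1.2⟩
    have hval : ∀ x ∈ Ms.sigma G, n < x.1 * (n / x.1 + x.2) ∧ x.1 * (n / x.1 + x.2) ≤ n + Y := by
      intro x hx
      obtain ⟨h1, h2, h3, _⟩ := hpre x hx
      have hx0 : 0 < x.1 := (hm x.1 h1).1
      have h5 := Nat.div_add_mod n x.1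
      have h6 := Nat.mod_lt n hx0
      have h7 : x.1 * x.2 ≤ Y := by
        calc x.1 * x.2 ≤ x.1 * (Y / x.1) := Nat.mul_le_mul_left _ h3
          _ ≤ Y := Nat.mul_div_le Y x.1
      have h8 : x.1 ≤ x.1 * x.2 := Nat.le_mul_of_pos_right _ h2
      rw [mul_add]
      constructor <;> omega
    have h10 : (Ms.sigma G).card ≤ ((Icc 1 Y).filter (fun h => ∀ p ∈ P, ¬ p ∣ n + h)).card := by
      refine card_le_card_of_injOn (fun x => x.1 * (n / x.1 + x.2) - n) ?_ ?_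
      · intro x hx
        rw [mem_coe] at hx
        obtain ⟨h1, h2, h3, h4⟩ := hpre x hx
        obtain ⟨h5, h6⟩ := hval x hx
        rw [mem_coe, mem_filter, mem_Icc]
        beta_reduce
        refine ⟨⟨by omega, by omega⟩, fun p hp hd => ?_⟩
        have e : n + (x.1 * (n / x.1 + x.2) - n) = x.1 * (n / x.1 + x.2) := by omega
        rw [e] at hd
        rcases (hP p hp).1.dvd_mul.1 hd with h7 | h7
        · exact (hm x.1 h1).2.2 p hp h7
        · exact h4 p (hP p hp).1 (lt_of_le_of_lt (hP p hp).2 (hLb x.1 h1)) h7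
      · have key : ∀ x ∈ Ms.sigma G, ∀ x' ∈ Ms.sigma G,
            x.1 * (n / x.1 + x.2) = x'.1 * (n / x'.1 + x'.2) → x.1 ∣ x'.1 := by
          intro x hx x' hx' heq
          obtain ⟨h1, h2, h3, h4⟩ := hpre x hx
          obtain ⟨h1', h2', h3', h4'⟩ := hpre x' hx'
          have hd : x.1 ∣ x'.1 * (n / x'.1 + x'.2) := heq ▸ dvd_mul_right _ _
          refine Nat.Coprime.dvd_of_dvd_mul_right ?_ hd
          rw [Nat.coprime_iff_gcd_eq_one]
          by_contra hne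
          obtain ⟨p, hp, hpd⟩ := Nat.exists_prime_and_dvd hne
          have h5 : p ∣ x.1 := hpd.trans (Nat.gcd_dvd_left _ _)
          have h6 : p ∣ n / x'.1 + x'.2 := hpd.trans (Nat.gcd_dvd_right _ _)
          refine h4' p hp ?_ h6
          have h7 : p ≤ x.1 := Nat.le_of_dvd (hm x.1 h1).1 h5
          have h8 : (p : ℝ) ≤ x.1 := by exact_mod_cast h7
          have h9 : (Y : ℝ) ^ η ≤ (Y : ℝ) ^ (1 / (2 + ε)) :=
            Real.rpow_le_rpow_of_exponent_le hY1.le hη1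
          have h10 := (hm x.1 h1).2.1
          have h11 := hLb x'.1 h1'
          linarith
        intro x hx x' hx' heq
        rw [mem_coe] at hx hx'
        have h5 := hval x hx
        have h5' := hval x' hx'
        beta_reduce at heq
        have heq' : x.1 * (n / x.1 + x.2) = x'.1 * (n / x'.1 + x'.2) := by omega
        have h6 : x.1 = x'.1 := Nat.dvd_antisymm (key x hx x' hx' heq') (key x' hx' x hx heq'.symm)
        obtain ⟨m, j⟩ := x
        obtain ⟨m', j'⟩ := x'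
        simp only at h6 heq'
        subst h6
        have hm0 : 0 < m := (hm m (hpre _ hx).1).1
        have h7 := Nat.eq_of_mul_eq_mul_left hm0 heq'
        have h8 : j = j' := by omega
        rw [h8]
    exact_mod_cast h10
  refine le_trans ?_ hcard
  rw [card_sigma]
  push_cast
  have h1 : ∀ m ∈ Ms, c / 2 * (Y / Real.log Y) * (1 / (m : ℝ)) ≤ ((G m).card : ℝ) := by
    intro m hmm
    have h2 := H (Y / m) (hYm m hmm) (n / m)
    refine le_trans ?_ h2
    have h3 := hLm m hmm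
    have h4 := hq m hmm
    have hY1' : (0 : ℝ) ≤ Y1 := Nat.cast_nonneg _
    have h5 : (1 : ℝ) ≤ ((Y / m : ℕ) : ℝ) := by linarith
    have h6 : ((Y / m : ℕ) : ℝ) ≤ Y := by exact_mod_cast Nat.div_le_self Y m
    have h7 : (1 : ℝ) < ((Y / m : ℕ) : ℝ) := by
      have h8 := hLb m hmm
      by_contra hcon
      have h9 : ((Y / m : ℕ) : ℝ) ^ ζ ≤ 1 := Real.rpow_le_one (by linarith) (not_lt.1 hcon) hζ0.le
      have h10 : 1 ≤ (Y : ℝ) ^ (1 / (2 + ε)) := Real.one_le_rpow hY1.le (by positivity)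
      linarith
    have h8 : 0 < Real.log ((Y / m : ℕ) : ℝ) := Real.log_pos h7
    have h9 : Real.log ((Y / m : ℕ) : ℝ) ≤ Real.log Y := Real.log_le_log (by linarith) h6
    have hm0 : (0 : ℝ) < m := by exact_mod_cast (hm m hmm).1
    have h10 : (1 / 2 : ℝ) * ((Y : ℝ) / m) / Real.log Y ≤
        ((Y / m : ℕ) : ℝ) / Real.log ((Y / m : ℕ) : ℝ) := by
      gcongr
    have h11 := mul_le_mul_of_nonneg_left h10 hc.le
    refine le_trans (le_of_eq ?_) h11
    ring
  refine le_trans ?_ (sum_le_sum h1)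
  rw [← mul_sum]
  have h2 := free_sum X P fun p hp => (hP p hp).1
  have h3 : η * Real.log Y ≤ ∑ m ∈ Icc 1 X, 1 / (m : ℝ) := by
    have h4 : Real.log ((X : ℝ) + 1) ≤ ∑ m ∈ Icc 1 X, 1 / (m : ℝ) := by
      have h5 := log_add_one_le_harmonic X
      rw [harmonic_eq_sum_Icc] at h5
      push_cast at h5
      simpa [one_div] using h5
    refine le_trans ?_ h4
    rw [← Real.log_rpow hY0]
    exact Real.log_le_log (by positivity) (Nat.lt_floor_add_one _).le
  have h4 : 0 ≤ ∏ p ∈ P, (1 - 1 / (p : ℝ)) := prod_nonneg fun p hp => by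
    have : (2 : ℝ) ≤ p := by exact_mod_cast (hP p hp).1.two_le
    rw [sub_nonneg, div_le_one (by linarith)]; linarith
  set W : ℝ := ∏ p ∈ P, (1 - 1 / (p : ℝ)) with hW
  have h5 : W * (η * Real.log Y) ≤ ∑ m ∈ Ms, 1 / (m : ℝ) :=
    (mul_le_mul_of_nonneg_left h3 h4).trans h2
  have h6 : 0 ≤ c / 2 * (Y / Real.log Y) := by positivity
  have h7 := mul_le_mul_of_nonneg_left h5 h6
  refine le_trans (le_of_eq ?_) h7
  field_simp

end Pool.Agent.Y835.SB
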