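import Mathlib

/-!
Averaging operators on periodic functions, and the level inequality (analysis of variance).
-/

set_option autoImplicit false

namespace Pool.Agent.Y835.SB

open Finset

/-- the sum over a period is invariant under shifts -/
theorem sum_shift {N : ℕ} {F : ℕ → ℝ} (hF : Function.Periodic F N) (a : ℕ) :
    ∑ n ∈ range N, F (n + a) = ∑ n ∈ range N, F n := by
  induction a with
  | zero => simp
  | succ a ih =>
    have h1 : ∑ n ∈ range N, F (n + (a + 1)) + F (0 + a) =
        ∑ n ∈ range N, F (n + a) + F (N + a) := by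
      have e1 : ∑ n ∈ range (N + 1), F (n + a) = ∑ n ∈ range N, F (n + a) + F (N + a) :=
        sum_range_succ (fun n => F (n + a)) N
      have e2 : ∑ n ∈ range (N + 1), F (n + a) = ∑ n ∈ range N, F (n + 1 + a) + F (0 + a) :=
        sum_range_succ' (fun n => F (n + a)) N
      have e3 : ∑ n ∈ range N, F (n + 1 + a) = ∑ n ∈ range N, F (n + (a + 1)) :=
        sum_congr rfl fun n _ => by rw [add_assoc, add_comm 1 a]
      rw [e3] at e2
      linarith
    have h2 : F (N + a) = F (0 + a) := by
      rw [zero_add, add_comm]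
      exact hF a
    linarith

/-- average over the shifts by `M t`, `t < K` -/
noncomputable def Av (M K : ℕ) (F : ℕ → ℝ) (n : ℕ) : ℝ := (∑ t ∈ range K, F (n + M * t)) / K

theorem Av_per {M K L : ℕ} {F : ℕ → ℝ} (hF : Function.Periodic F L) :
    Function.Periodic (Av M K F) L := by
  intro n
  unfold Av
  congr 1
  refine sum_congr rfl fun t _ => ?_
  have e : n + L + M * t = n + M * t + L := by ring
  rw [e]
  exact hF _

theorem Av_perM {M K : ℕ} {F : ℕ → ℝ} (hF : Function.Periodic F (M * K)) :
    Function.Periodic (Av M K F) M := by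
  intro n
  unfold Av
  congr 1
  have hg : Function.Periodic (fun t => F (n + M * t)) K := by
    intro t
    have e : n + M * (t + K) = n + M * t + M * K := by ring
    simp only [e]
    exact hF _
  have h := sum_shift hg 1
  rw [← h]
  refine sum_congr rfl fun t _ => ?_
  have e : n + M + M * t = n + M * (t + 1) := by ring
  rw [e]

theorem Av_of_per {M K : ℕ} (hK : 0 < K) {F : ℕ → ℝ} (hF : Function.Periodic F M) :
    Av M K F = F := by
  funext n
  unfold Av
  have h : ∀ t ∈ range K, F (n + M * t) = F n := by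
    intro t _
    have := hF.nat_mul t n
    rw [Nat.cast_id, mul_comm] at this
    exact this
  rw [sum_congr rfl h, sum_const, card_range, nsmul_eq_mul]
  have : (K : ℝ) ≠ 0 := by exact_mod_cast hK.ne'
  field_simp

theorem Av_mul {M K : ℕ} {F G : ℕ → ℝ} (hG : Function.Periodic G M) (n : ℕ) :
    Av M K (fun n => F n * G n) n = Av M K F n * G n := by
  unfold Av
  rw [div_mul_eq_mul_div, sum_mul]
  congr 1
  refine sum_congr rfl fun t _ => ?_
  have := hG.nat_mul t n
  rw [Nat.cast_id, mul_comm] at this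
  show F (n + M * t) * G (n + M * t) = F (n + M * t) * G n
  rw [this]

theorem sum_Av {M K N : ℕ} (hK : 0 < K) {F : ℕ → ℝ} (hF : Function.Periodic F N) :
    ∑ n ∈ range N, Av M K F n = ∑ n ∈ range N, F n := by
  unfold Av
  rw [← sum_div, sum_comm]
  have h : ∀ t ∈ range K, ∑ n ∈ range N, F (n + M * t) = ∑ n ∈ range N, F n :=
    fun t _ => sum_shift hF _
  rw [sum_congr rfl h, sum_const, card_range, nsmul_eq_mul]
  have : (K : ℝ) ≠ 0 := by exact_mod_cast hK.ne'
  field_simp

theorem Av_comm (M K M' K' : ℕ) (F : ℕ → ℝ) : Av M K (Av M' K' F) = Av M' K' (Av M K F) := by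
  funext n
  unfold Av
  rw [← sum_div, ← sum_div, sum_comm]
  have : ∀ t ∈ range K', ∀ s ∈ range K, F (n + M * s + M' * t) = F (n + M' * t + M * s) := by
    intro t _ s _
    congr 1
    ring
  rw [sum_congr rfl fun t ht => sum_congr rfl (this t ht)]
  rw [div_div, div_div, mul_comm (K : ℝ)]

theorem Av_sub (M K : ℕ) (F G : ℕ → ℝ) : Av M K (F - G) = Av M K F - Av M K G := by
  funext n
  unfold Av
  simp only [Pi.sub_apply, sum_sub_distrib, sub_div]

theorem Av_sum {ι : Type} (M K : ℕ) (s : Finset ι) (f : ι → ℕ → ℝ) :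
    Av M K (∑ i ∈ s, f i) = ∑ i ∈ s, Av M K (f i) := by
  funext n
  rw [Finset.sum_apply]
  unfold Av
  rw [← sum_div]
  congr 1
  simp only [Finset.sum_apply]
  exact sum_comm

/-- sum of squares over a period -/
noncomputable def SS (N : ℕ) (F : ℕ → ℝ) : ℝ := ∑ n ∈ range N, F n ^ 2

theorem SS_nonneg (N : ℕ) (F : ℕ → ℝ) : 0 ≤ SS N F := sum_nonneg fun _ _ => sq_nonneg _

theorem orth {N M K : ℕ} (hN : M * K = N) (hK : 0 < K) {F : ℕ → ℝ} (hF : Function.Periodic F N) :
    SS N F = SS N (Av M K F) + SS N (F - Av M K F) := by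
  have hA : Function.Periodic (Av M K F) M := Av_perM (hN ▸ hF)
  have hAN : Function.Periodic (Av M K F) N := Av_per hF
  have h1 : ∑ n ∈ range N, F n * Av M K F n = SS N (Av M K F) := by
    have hp : Function.Periodic (fun n => F n * Av M K F n) N := fun n => by
      simp only [hF n, hAN n]
    rw [← sum_Av (M := M) hK hp]
    unfold SS
    refine sum_congr rfl fun n _ => ?_
    rw [Av_mul hA, sq]
  have h2 : SS N F = SS N (Av M K F) + SS N (F - Av M K F) +
      2 * (∑ n ∈ range N, F n * Av M K F n - SS N (Av M K F)) := by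
    unfold SS
    rw [mul_sub, mul_sum, mul_sum, ← sum_add_distrib, ← sum_sub_distrib, ← sum_add_distrib]
    refine sum_congr rfl fun n _ => ?_
    rw [Pi.sub_apply]
    ring
  rw [h2, h1]
  ring

open Classical in
/-- the level inequality: `F = ∑ f i`, where `f i` depends only on the coordinates in `T i`, with
product at most `R` -/
theorem anova {ι : Type} (N : ℕ) (M K : ℕ → ℕ) (T : ι → Finset ℕ) (Q : Finset ℕ) :
    (∀ p ∈ Q, M p * K p = N ∧ 0 < K p ∧ 1 ≤ p) → ∀ (s : Finset ι) (f : ι → ℕ → ℝ) (R : ℝ),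
    (∀ i ∈ s, Function.Periodic (f i) N ∧ (∀ p ∈ Q, p ∉ T i → Function.Periodic (f i) (M p)) ∧
      ∏ p ∈ Q.filter (fun p => p ∈ T i), (p : ℝ) ≤ R) →
    ∑ p ∈ Q, Real.log p * SS N ((∑ i ∈ s, f i) - Av (M p) (K p) (∑ i ∈ s, f i)) ≤
      Real.log R * SS N (∑ i ∈ s, f i) := by
  induction Q using Finset.induction_on with
  | empty =>
    intro _ s f R h
    rw [sum_empty]
    rcases s.eq_empty_or_nonempty with h1 | ⟨i, hi⟩
    · subst h1
      simp [SS]
    · have h2 := (h i hi).2.2
      rw [filter_empty, prod_empty] at h2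
      exact mul_nonneg (Real.log_nonneg h2) (SS_nonneg _ _)
  | insert p Q hpQ ih =>
    intro hQ s f R h
    have hQ' : ∀ q ∈ Q, M q * K q = N ∧ 0 < K q ∧ 1 ≤ q := fun q hq => hQ q (mem_insert_of_mem hq)
    obtain ⟨hN, hK, hp1⟩ := hQ p (mem_insert_self p Q)
    have hp1' : (1 : ℝ) ≤ p := by exact_mod_cast hp1
    set F : ℕ → ℝ := ∑ i ∈ s, f i with hF
    have hFN : Function.Periodic F N := by
      intro n
      rw [hF, Finset.sum_apply, Finset.sum_apply]
      exact sum_congr rfl fun i hi => (h i hi).1 n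
    set F1 : ℕ → ℝ := Av (M p) (K p) F with hF1
    set F2 : ℕ → ℝ := F - F1 with hF2
    have ih1 := ih hQ' s (fun i => Av (M p) (K p) (f i)) R (by
      intro i hi
      obtain ⟨h1, h2, h3⟩ := h i hi
      refine ⟨Av_per h1, fun q hq hqT => Av_per (h2 q (mem_insert_of_mem hq) hqT), ?_⟩
      refine le_trans ?_ h3
      rw [filter_insert]
      split_ifs with h4
      · rw [prod_insert (fun h5 => hpQ (mem_filter.1 h5).1)]
        have h5 : 0 ≤ ∏ q ∈ Q.filter (fun q => q ∈ T i), (q : ℝ) :=
          prod_nonneg fun _ _ => Nat.cast_nonneg _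
        nlinarith
      · exact le_rfl)
    have e1 : ∑ i ∈ s, Av (M p) (K p) (f i) = F1 := by
      rw [hF1, hF, Av_sum]
    rw [e1] at ih1
    have ih2 : ∑ q ∈ Q, Real.log q * SS N (F2 - Av (M q) (K q) F2) ≤
        (Real.log R - Real.log p) * SS N F2 := by
      have e2 : F2 = ∑ i ∈ s.filter (fun i => p ∈ T i), (f i - Av (M p) (K p) (f i)) := by
        rw [hF2, ← e1, hF, ← sum_sub_distrib, sum_filter]
        refine sum_congr rfl fun i hi => ?_
        split_ifs with h4
        · rfl
        · rw [Av_of_per hK ((h i hi).2.1 p (mem_insert_self p Q) h4), sub_self]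
      rcases (s.filter (fun i => p ∈ T i)).eq_empty_or_nonempty with h5 | ⟨i, hi⟩
      · rw [h5, sum_empty] at e2
        rw [e2]
        have e3 : ∀ q, Av (M q) (K q) (0 : ℕ → ℝ) = 0 := by
          intro q
          funext n
          simp [Av]
        simp [e3, SS]
      · have hRp : (p : ℝ) ≤ R := by
          rw [mem_filter] at hi
          have h3 := (h i hi.1).2.2
          rw [filter_insert, if_pos hi.2, prod_insert (fun h5 => hpQ (mem_filter.1 h5).1)] at h3
          have h6 : 1 ≤ ∏ q ∈ Q.filter (fun q => q ∈ T i), (q : ℝ) := by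
            have h7 : 1 ≤ ∏ q ∈ Q.filter (fun q => q ∈ T i), q :=
              Nat.one_le_iff_ne_zero.2 (prod_ne_zero_iff.2 fun q hq =>
                Nat.one_le_iff_ne_zero.1 (hQ' q (mem_filter.1 hq).1).2.2)
            rw [← Nat.cast_prod]
            exact_mod_cast h7
          nlinarith
        have hR0 : R ≠ 0 := by linarith
        have hp0 : (p : ℝ) ≠ 0 := by linarith
        have h8 := ih hQ' (s.filter (fun i => p ∈ T i)) (fun i => f i - Av (M p) (K p) (f i)) (R / p)
          (by
            intro j hj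
            rw [mem_filter] at hj
            obtain ⟨h1, h2, h3⟩ := h j hj.1
            refine ⟨?_, ?_, ?_⟩
            · intro n
              rw [Pi.sub_apply, Pi.sub_apply, h1 n, Av_per (M := M p) (K := K p) h1 n]
            · intro q hq hqT n
              have h9 := h2 q (mem_insert_of_mem hq) hqT
              rw [Pi.sub_apply, Pi.sub_apply, h9 n, Av_per (M := M p) (K := K p) h9 n]
            · rw [filter_insert, if_pos hj.2, prod_insert (fun h5 => hpQ (mem_filter.1 h5).1)] at h3
              rw [le_div_iff₀ (by linarith)]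
              linarith)
        rw [← e2, Real.log_div hR0 hp0] at h8
        exact h8
    have hF1N : Function.Periodic F1 N := Av_per hFN
    have h10 : SS N F = SS N F1 + SS N F2 := orth hN hK hFN
    have h11 : ∀ q ∈ Q, SS N (F - Av (M q) (K q) F) =
        SS N (F1 - Av (M q) (K q) F1) + SS N (F2 - Av (M q) (K q) F2) := by
      intro q _
      have hD : Function.Periodic (F - Av (M q) (K q) F) N := by
        intro n
        rw [Pi.sub_apply, Pi.sub_apply, hFN n, Av_per (M := M q) (K := K q) hFN n]
      rw [orth hN hK hD]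
      have e3 : Av (M p) (K p) (F - Av (M q) (K q) F) = F1 - Av (M q) (K q) F1 := by
        rw [Av_sub, hF1, Av_comm]
      have e4 : F - Av (M q) (K q) F - Av (M p) (K p) (F - Av (M q) (K q) F) =
          F2 - Av (M q) (K q) F2 := by
        rw [e3, hF2, Av_sub]
        abel
      rw [e4, e3]
    rw [sum_insert hpQ]
    have h12 : ∑ q ∈ Q, Real.log q * SS N (F - Av (M q) (K q) F) =
        ∑ q ∈ Q, Real.log q * SS N (F1 - Av (M q) (K q) F1) +
        ∑ q ∈ Q, Real.log q * SS N (F2 - Av (M q) (K q) F2) := by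
      rw [← sum_add_distrib]
      refine sum_congr rfl fun q hq => ?_
      rw [h11 q hq]
      ring
    rw [h12, h10]
    have h13 : F - Av (M p) (K p) F = F2 := rfl
    rw [h13]
    nlinarith

end Pool.Agent.Y835.SB
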