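import Pool.Agent.Y835.SB.Site
import Pool.Agent.TH892.SW.S2

/-!
Counting the integers of an interval divisible by `e` and free of the small primes.
-/

set_option autoImplicit false

namespace Pool.Agent.Y835.SB

open Finset

open Classical in
theorem one_class {p : ℕ} (hp : p.Prime) (m : ℕ) :
    ((range p).filter (fun a => p ∣ m + a)).card = 1 := by
  have h := fib_card (K := p) (M := 1) (k := 1) hp (by rw [pow_one]) le_rfl
    (fun h => hp.one_lt.ne' (Nat.dvd_one.1 h)) m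
  simp only [one_mul] at h
  exact Nat.eq_of_mul_eq_mul_right hp.pos (by rw [one_mul]; convert h)

theorem one_class' {p : ℕ} (hp : p.Prime) (m : ℕ) (inst : DecidablePred (fun a => p ∣ m + a)) :
    (@Finset.filter ℕ (fun a => p ∣ m + a) inst (range p)).card = 1 := by
  have h := one_class hp m
  convert h

open Classical in
/-- the fundamental lemma on an interval -/
theorem fl_int : ∃ C0 K0 : ℕ, 1 ≤ C0 ∧ 1 ≤ K0 ∧ ∀ b : ℕ, C0 ≤ b → ∀ z : ℕ, 3 ≤ z →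
    ∀ P : Finset ℕ, (∀ p ∈ P, p.Prime ∧ p ≤ z) → ∀ m L : ℕ,
    |(((Icc 1 L).filter (fun k => ∀ p ∈ P, ¬ p ∣ m + k)).card : ℝ) -
        L * ∏ p ∈ P, (1 - 1 / (p : ℝ))| ≤
      (1 / 2 : ℝ) ^ b * (L * ∏ p ∈ P, (1 - 1 / (p : ℝ))) + 2 * K0 * (z : ℝ) ^ (4 * C0 * b + 1) := by
  obtain ⟨C0, K0, hC0, hK0, H⟩ := Pool.Agent.TH892.SW.fl_set 1
  refine ⟨C0, K0, hC0, hK0, fun b hb z hz P hP m L => ?_⟩
  have h := H b hb z (by omega) L P (fun p a => p ∣ m + a) (fun p hp => by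
    refine ⟨(hP p hp).1, (hP p hp).2, ?_⟩
    rw [one_class' (hP p hp).1 m])
  have e1 : ∀ inst : ∀ p, DecidablePred (fun a => p ∣ m + a),
      ∏ p ∈ P, (1 - ((@Finset.filter ℕ (fun a => p ∣ m + a) (inst p) (range p)).card : ℝ) / p) =
      ∏ p ∈ P, (1 - 1 / (p : ℝ)) := by
    intro inst
    refine prod_congr rfl fun p hp => ?_
    rw [one_class' (hP p hp).1 m, Nat.cast_one]
  have e2 : ∀ inst : DecidablePred (fun n => ∀ p ∈ P, ¬ p ∣ m + n % p),
      (@Finset.filter ℕ (fun n => ∀ p ∈ P, ¬ p ∣ m + n % p) inst (Icc 1 L)).card =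
      ((Icc 1 L).filter (fun k => ∀ p ∈ P, ¬ p ∣ m + k)).card := by
    intro inst
    congr 1
    refine (filter_congr fun n _ => ?_)
    refine forall₂_congr fun p _ => not_congr ?_
    rw [Nat.dvd_iff_mod_eq_zero, Nat.dvd_iff_mod_eq_zero, Nat.add_mod_mod]
  rw [e1 fun p a => Classical.propDecidable (p ∣ m + a), e2] at h
  refine h.trans ?_
  have h1 : (Pool.Agent.W41.JJ z : ℝ) + 2 ≤ 2 * z := by
    exact_mod_cast Pool.Agent.W41.JJ_small z hz
  have h2 : ((Pool.Agent.W41.JJ z : ℝ) + 2) *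
      ((z : ℝ) ^ (2 * (C0 * b)) * (K0 * (z : ℝ) ^ (2 * (C0 * b)))) ≤
      2 * K0 * (z : ℝ) ^ (4 * C0 * b + 1) := by
    have e : 2 * K0 * (z : ℝ) ^ (4 * C0 * b + 1) = (2 * z) *
        ((z : ℝ) ^ (2 * (C0 * b)) * (K0 * (z : ℝ) ^ (2 * (C0 * b)))) := by
      have : 4 * C0 * b + 1 = 2 * (C0 * b) + 2 * (C0 * b) + 1 := by ring
      rw [this, pow_add, pow_add, pow_one]
      ring
    rw [e]
    exact mul_le_mul_of_nonneg_right h1 (by positivity)
  linarith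

open Classical in
/-- multiples of `e` free of the primes of `P` in an interval -/
theorem mult_eq {P : Finset ℕ} {e : ℕ} (he : 0 < e) (hP : ∀ p ∈ P, p.Prime ∧ ¬ p ∣ e) (n Y : ℕ) :
    ((Icc 1 Y).filter (fun h => e ∣ n + h ∧ ∀ p ∈ P, ¬ p ∣ n + h)).card =
      ((Icc 1 ((n + Y) / e - n / e)).filter (fun k => ∀ p ∈ P, ¬ p ∣ n / e + k)).card := by
  refine card_bij (fun h _ => (n + h) / e - n / e) ?_ ?_ ?_
  · intro h hh
    rw [mem_filter, mem_Icc] at hh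
    obtain ⟨⟨h1, h2⟩, ⟨c, hc⟩, h3⟩ := hh
    have e1 : (n + h) / e = c := by rw [hc]; exact Nat.mul_div_cancel_left c he
    have h4 : n / e < c := by
      rw [Nat.div_lt_iff_lt_mul he, mul_comm]
      omega
    have h5 : c ≤ (n + Y) / e := by
      rw [Nat.le_div_iff_mul_le he, mul_comm]
      omega
    rw [mem_filter, mem_Icc, e1]
    refine ⟨⟨by omega, by omega⟩, fun p hp h6 => h3 p hp ?_⟩
    have e2 : n / e + (c - n / e) = c := by omega
    rw [e2] at h6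
    rw [hc]
    exact h6.mul_left e
  · intro h hh h' hh' heq
    rw [mem_filter, mem_Icc] at hh hh'
    obtain ⟨⟨h1, h2⟩, ⟨c, hc⟩, h3⟩ := hh
    obtain ⟨⟨h1', h2'⟩, ⟨c', hc'⟩, h3'⟩ := hh'
    have e1 : (n + h) / e = c := by rw [hc]; exact Nat.mul_div_cancel_left c he
    have e1' : (n + h') / e = c' := by rw [hc']; exact Nat.mul_div_cancel_left c' he
    have h4 : n / e < c := by
      rw [Nat.div_lt_iff_lt_mul he, mul_comm]
      omega
    have h4' : n / e < c' := by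
      rw [Nat.div_lt_iff_lt_mul he, mul_comm]
      omega
    rw [e1, e1'] at heq
    have h5 : c = c' := by omega
    rw [← h5] at hc'
    omega
  · intro k hk
    rw [mem_filter, mem_Icc] at hk
    obtain ⟨⟨h1, h2⟩, h3⟩ := hk
    have h4 : n < e * (n / e + k) := by
      have h5 : n / e < n / e + k := by omega
      rw [Nat.div_lt_iff_lt_mul he] at h5
      rw [mul_comm]
      exact h5
    have h5 : e * (n / e + k) ≤ n + Y := by
      have h6 : n / e + k ≤ (n + Y) / e := by omega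
      rw [Nat.le_div_iff_mul_le he] at h6
      rw [mul_comm]
      exact h6
    have e0 : n + (e * (n / e + k) - n) = e * (n / e + k) := by omega
    refine ⟨e * (n / e + k) - n, ?_, ?_⟩
    · rw [mem_filter, mem_Icc, e0]
      refine ⟨⟨by omega, by omega⟩, dvd_mul_right _ _, fun p hp h6 => ?_⟩
      rcases (hP p hp).1.dvd_mul.1 h6 with h7 | h7
      · exact (hP p hp).2 h7
      · exact h3 p hp h7
    · rw [e0, Nat.mul_div_cancel_left _ he]
      omega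

theorem len_bd (e n Y : ℕ) (he : 0 < e) :
    |(((n + Y) / e - n / e : ℕ) : ℝ) - (Y : ℝ) / e| ≤ 1 := by
  have he' : (0 : ℝ) < e := by exact_mod_cast he
  have h1 : n / e ≤ (n + Y) / e := Nat.div_le_div_right (by omega)
  rw [Nat.cast_sub h1]
  have h2 : ((n + Y : ℕ) : ℝ) / e - 1 < (((n + Y) / e : ℕ) : ℝ) := by
    have := Nat.sub_one_lt_floor (((n + Y : ℕ) : ℝ) / e)
    rwa [Nat.floor_div_natCast, Nat.floor_natCast] at this
  have h3 : (((n + Y) / e : ℕ) : ℝ) ≤ ((n + Y : ℕ) : ℝ) / e := Nat.cast_div_le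
  have h4 : ((n : ℕ) : ℝ) / e - 1 < ((n / e : ℕ) : ℝ) := by
    have := Nat.sub_one_lt_floor (((n : ℕ) : ℝ) / e)
    rwa [Nat.floor_div_natCast, Nat.floor_natCast] at this
  have h5 : ((n / e : ℕ) : ℝ) ≤ ((n : ℕ) : ℝ) / e := Nat.cast_div_le
  have h6 : ((n + Y : ℕ) : ℝ) / e = (n : ℝ) / e + (Y : ℝ) / e := by
    push_cast
    rw [add_div]
  rw [h6] at h2 h3
  rw [abs_le]
  constructor <;> linarith

open Classical in
theorem rcount : ∃ C0 K0 : ℕ, 1 ≤ C0 ∧ 1 ≤ K0 ∧ ∀ b : ℕ, C0 ≤ b → ∀ z : ℕ, 3 ≤ z →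
    ∀ P : Finset ℕ, (∀ p ∈ P, p.Prime ∧ p ≤ z) → ∀ e : ℕ, 0 < e → (∀ p ∈ P, ¬ p ∣ e) → ∀ n Y : ℕ,
    |(((Icc 1 Y).filter (fun h => e ∣ n + h ∧ ∀ p ∈ P, ¬ p ∣ n + h)).card : ℝ) -
        (Y : ℝ) / e * ∏ p ∈ P, (1 - 1 / (p : ℝ))| ≤
      (1 / 2 : ℝ) ^ b * ((Y : ℝ) / e * ∏ p ∈ P, (1 - 1 / (p : ℝ))) +
        4 * K0 * (z : ℝ) ^ (4 * C0 * b + 1) := by
  obtain ⟨C0, K0, hC0, hK0, H⟩ := fl_int
  refine ⟨C0, K0, hC0, hK0, fun b hb z hz P hP e he hPe n Y => ?_⟩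
  rw [mult_eq he (fun p hp => ⟨(hP p hp).1, hPe p hp⟩)]
  have h1 := H b hb z hz P hP (n / e) ((n + Y) / e - n / e)
  have h2 := len_bd e n Y he
  set L : ℝ := (((n + Y) / e - n / e : ℕ) : ℝ) with hL
  set V : ℝ := ∏ p ∈ P, (1 - 1 / (p : ℝ)) with hV
  set c : ℝ := (((Icc 1 ((n + Y) / e - n / e)).filter
    (fun k => ∀ p ∈ P, ¬ p ∣ n / e + k)).card : ℝ) with hc
  have hV0 : 0 ≤ V := prod_nonneg fun p hp => by
    have : (2 : ℝ) ≤ p := by exact_mod_cast (hP p hp).1.two_le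
    rw [sub_nonneg, div_le_one (by linarith)]; linarith
  have hV1 : V ≤ 1 := prod_le_one (fun p hp => by
    have : (2 : ℝ) ≤ p := by exact_mod_cast (hP p hp).1.two_le
    rw [sub_nonneg, div_le_one (by linarith)]; linarith) (fun p _ => by
    have : (0 : ℝ) ≤ 1 / p := by positivity
    linarith)
  have hb1 : (1 / 2 : ℝ) ^ b ≤ 1 := pow_le_one₀ (by norm_num) (by norm_num)
  have hb0 : (0 : ℝ) < (1 / 2 : ℝ) ^ b := by positivity
  have hz1 : (1 : ℝ) ≤ (z : ℝ) ^ (4 * C0 * b + 1) := one_le_pow₀ (by exact_mod_cast (by omega))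
  have hK1 : (1 : ℝ) ≤ K0 := by exact_mod_cast hK0
  have h3 : |L * V - (Y : ℝ) / e * V| ≤ 1 := by
    rw [← sub_mul, abs_mul, abs_of_nonneg hV0]
    nlinarith [abs_nonneg (L - (Y : ℝ) / e)]
  have h4 : L * V ≤ (Y : ℝ) / e * V + 1 := by
    have := (abs_le.1 h3).2
    linarith
  have h5 : |c - (Y : ℝ) / e * V| ≤ |c - L * V| + |L * V - (Y : ℝ) / e * V| :=
    abs_sub_le _ _ _
  have h6 : (1 / 2 : ℝ) ^ b * (L * V) ≤ (1 / 2 : ℝ) ^ b * ((Y : ℝ) / e * V) + 1 := by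
    have := mul_le_mul_of_nonneg_left h4 hb0.le
    linarith
  have h7 : 1 ≤ K0 * (z : ℝ) ^ (4 * C0 * b + 1) := by nlinarith
  linarith

end Pool.Agent.Y835.SB
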