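import Pool.Agent.Y835.SB.Fin

/-!
The barrier theorems for squared sieve weights: choice of the parameters.
-/

set_option autoImplicit false

namespace Pool.Agent.Y835.SB

open Finset

theorem ev_log {θ B : ℝ} (hθ : 0 < θ) :
    ∀ᶠ y : ℕ in Filter.atTop, B * Real.log y ^ 2 ≤ (y : ℝ) ^ θ := by
  have h1 : (fun x : ℝ => Real.log x ^ (2 : ℝ)) =o[Filter.atTop] fun x => x ^ θ :=
    isLittleO_log_rpow_rpow_atTop 2 hθ
  have hB : 0 < 1 / (|B| + 1) := by positivity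
  have h2 := (h1.bound hB).and (Filter.eventually_ge_atTop (1 : ℝ))
  have h3 := tendsto_natCast_atTop_atTop (R := ℝ) |>.eventually h2
  filter_upwards [h3] with y hy
  obtain ⟨h4, h5⟩ := hy
  have hl : 0 ≤ Real.log (y : ℝ) := Real.log_nonneg h5
  have hy0 : (0 : ℝ) < y := by linarith
  rw [Real.norm_of_nonneg (by positivity), Real.norm_of_nonneg (by positivity), Real.rpow_two] at h4
  have h6 : (|B| + 1) * Real.log y ^ 2 ≤ (y : ℝ) ^ θ := by
    have := mul_le_mul_of_nonneg_left h4 (by positivity : 0 ≤ |B| + 1)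
    refine this.trans (le_of_eq ?_)
    field_simp
  have h7 := le_abs_self B
  nlinarith [sq_nonneg (Real.log y)]

open Classical in
/-- the sets of weights and primes, and the two sides of the inequality -/
def Bar (κ : ℝ) (R : ℝ) (y : ℕ) : Prop := ∀ P : Finset ℕ, (∀ p ∈ P, p.Prime) →
    ∀ (I : Finset ℕ) (d : ℕ → ℕ) (f : ℕ → ℕ → ℝ),
    (∀ i ∈ I, 0 < d i ∧ (d i : ℝ) ≤ R ∧ Function.Periodic (f i) (d i)) → ∀ N : ℕ, 0 < N →
    (∀ p ∈ P, p ∣ N) → (∀ i ∈ I, d i ∣ N) →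
    κ * (y * ∏ p ∈ P, (1 - 1 / (p : ℝ))) * ∑ n ∈ range N, (∑ i ∈ I, f i n) ^ 2 ≤
      ∑ n ∈ range N, (∑ i ∈ I, f i n) ^ 2 *
        (((Icc 1 y).filter (fun h => ∀ p ∈ P, ¬ p ∣ n + h)).card : ℝ)

open Classical in
theorem asm {a θ c1 η : ℝ} (ha0 : 0 < a) (ha1 : a ≤ 1) (hθ0 : 0 < θ) (hc1 : 0 < c1)
    (hη0 : 0 < η) (hη1 : η ≤ 1) (Y0 : ℕ)
    (HS : ∀ Y : ℕ, Y0 ≤ Y → ∀ (n : ℕ) (P : Finset ℕ), (∀ p ∈ P, p.Prime ∧ (p : ℝ) ≤ (Y : ℝ) ^ a) →
      c1 * (Y * ∏ p ∈ P, (1 - 1 / (p : ℝ))) ≤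
      (((Icc 1 Y).filter (fun h => ∀ p ∈ P, ¬ p ∣ n + h)).card : ℝ)) :
    ∃ y1 : ℕ, ∀ (y : ℕ) (R : ℝ), y1 ≤ y → 2 ≤ R → Real.log R ≤ (y : ℝ) ^ (a - θ) →
      Bar ((1 - 2 * η) * c1) R y := by
  obtain ⟨cM, hcM, HM⟩ := prod_ge
  obtain ⟨C2, hC2, HI⟩ := sum_inv_le
  set B : ℝ := 10 / η * (C2 + 2) * (1 / cM) / (η * c1 * cM) with hB
  have hev := (ev_log (B := B) hθ0).and ((Filter.eventually_ge_atTop Y0).and
    (Filter.eventually_ge_atTop 3))
  obtain ⟨y1, hy1⟩ := Filter.eventually_atTop.1 hev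
  refine ⟨y1, fun y R hyy1 hR hRy2 P hP I d f hf N hN hPN hIN => ?_⟩
  have hl2 : 0 < Real.log 2 := Real.log_pos (by norm_num)
  have hlR : Real.log 2 ≤ Real.log R := Real.log_le_log (by norm_num) hR
  have hlR0 : 0 < Real.log R := by linarith
  obtain ⟨hB1, hY0, hy3⟩ := hy1 y hyy1
  have hy3' : (3 : ℝ) ≤ y := by exact_mod_cast hy3
  have hy1' : (1 : ℝ) < y := by linarith
  have hy0 : (0 : ℝ) < y := by linarith
  have hly : 0 < Real.log y := Real.log_pos hy1'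
  have hly1 : 1 ≤ Real.log y := by
    rw [Real.le_log_iff_exp_le hy0]
    have := Real.exp_one_lt_d9
    linarith
  set W : ℝ := (y : ℝ) ^ a with hW
  have hW1 : 1 ≤ W := Real.one_le_rpow hy1'.le ha0.le
  have hW0 : 0 < W := by linarith
  have hWy : W ≤ y := by
    calc W ≤ (y : ℝ) ^ (1 : ℝ) := Real.rpow_le_rpow_of_exponent_le hy1'.le ha1
      _ = y := Real.rpow_one _
  have hWθ : W = (y : ℝ) ^ (a - θ) * (y : ℝ) ^ θ := by
    rw [← Real.rpow_add hy0, hW]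
    congr 1
    ring
  set Λ : ℝ := (C2 + 2) * Real.log y with hΛ
  have hΛ1 : 1 ≤ Λ := by rw [hΛ]; nlinarith
  have hΛ0 : 0 < Λ := by linarith
  set S := P.filter (fun p : ℕ => (p : ℝ) ≤ W) with hS
  set Q := P.filter (fun p : ℕ => W < (p : ℝ)) with hQ
  set σ : ℝ := c1 * (y * ∏ p ∈ S, (1 - 1 / (p : ℝ))) with hσ
  have hlogRy : Real.log R ≤ y := by
    refine hRy2.trans ?_
    calc (y : ℝ) ^ (a - θ) ≤ (y : ℝ) ^ (1 : ℝ) :=
          Real.rpow_le_rpow_of_exponent_le hy1'.le (by linarith)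
      _ = y := Real.rpow_one _
  have hΛP : ∑ p ∈ Q.filter (fun p : ℕ => (p : ℝ) ≤ R), 1 / (p : ℝ) ≤ Λ := by
    have h1 := HI ⌊R⌋₊ (Nat.le_floor (by exact_mod_cast hR)) (Q.filter (fun p : ℕ => (p : ℝ) ≤ R))
      (fun p hp => ⟨hP p (mem_filter.1 (mem_filter.1 hp).1).1, Nat.le_floor (mem_filter.1 hp).2⟩)
    refine h1.trans ?_
    have h2 : 2 ≤ ⌊R⌋₊ := Nat.le_floor (by exact_mod_cast hR)
    have h3 : (⌊R⌋₊ : ℝ) ≤ R := Nat.floor_le (by linarith)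
    have h4 : (2 : ℝ) ≤ (⌊R⌋₊ : ℝ) := by exact_mod_cast h2
    have h5 : 0 < Real.log (⌊R⌋₊ : ℝ) := Real.log_pos (by linarith)
    have h6 : Real.log (⌊R⌋₊ : ℝ) ≤ Real.log R := Real.log_le_log (by linarith) h3
    have h7 : Real.log (Real.log (⌊R⌋₊ : ℝ)) ≤ Real.log y :=
      Real.log_le_log h5 (h6.trans hlogRy)
    rw [hΛ]
    nlinarith
  have hVS : cM / Real.log y ≤ ∏ p ∈ S, (1 - 1 / (p : ℝ)) :=
    HM y (by omega) S fun p hp => ⟨hP p (mem_filter.1 hp).1, by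
      have := (mem_filter.1 hp).2.trans hWy
      exact_mod_cast this⟩
  have hmain : 5 * Λ / η * (1 / cM) * (y / W + 1) * Real.log R ≤ η * σ := by
    have h1 : (y : ℝ) / W + 1 ≤ 2 * (y / W) := by
      have : 1 ≤ (y : ℝ) / W := by rw [le_div_iff₀ hW0]; linarith
      linarith
    have h2 : η * (c1 * (y * (cM / Real.log y))) ≤ η * σ := by
      rw [hσ]
      gcongr
    refine le_trans ?_ h2
    have h3 : 5 * Λ / η * (1 / cM) * (y / W + 1) * Real.log R ≤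
        5 * Λ / η * (1 / cM) * (2 * (y / W)) * Real.log R := by
      have : 0 ≤ 5 * Λ / η * (1 / cM) := by positivity
      gcongr
    refine h3.trans ?_
    have h4 : B * Real.log y ^ 2 * Real.log R ≤ W := by
      rw [hWθ]
      have h6 : 0 ≤ (y : ℝ) ^ θ := by positivity
      calc B * Real.log y ^ 2 * Real.log R ≤ (y : ℝ) ^ θ * Real.log R :=
            mul_le_mul_of_nonneg_right hB1 hlR0.le
        _ ≤ (y : ℝ) ^ θ * (y : ℝ) ^ (a - θ) := mul_le_mul_of_nonneg_left hRy2 h6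
        _ = _ := mul_comm _ _
    have e1 : 5 * Λ / η * (1 / cM) * (2 * (y / W)) * Real.log R =
        (B * Real.log y ^ 2 * Real.log R) * (η * c1 * cM * y / (W * Real.log y)) := by
      rw [hΛ, hB]
      field_simp
      ring
    have e2 : η * (c1 * (y * (cM / Real.log y))) = W * (η * c1 * cM * y / (W * Real.log y)) := by
      field_simp
    rw [e1, e2]
    exact mul_le_mul_of_nonneg_right h4 (by positivity)
  have hσ' : ∀ n : ℕ, σ ≤ (((Icc 1 y).filter (fun h => ∀ p ∈ P.filter (fun p : ℕ => (p : ℝ) ≤ W),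
      ¬ p ∣ n + h)).card : ℝ) := fun n =>
    HS y hY0 n S fun p hp => ⟨hP p (mem_filter.1 hp).1, (mem_filter.1 hp).2⟩
  have h := core hcM HM (R := R) hη0 hη1 hW1 hΛ1 hP hΛP hσ' hmain I d f hf hN hPN hIN
  refine le_trans (le_of_eq ?_) h
  congr 1
  have e3 : (∏ p ∈ P, (1 - 1 / (p : ℝ))) =
      (∏ p ∈ S, (1 - 1 / (p : ℝ))) * ∏ p ∈ Q, (1 - 1 / (p : ℝ)) := by
    rw [← prod_filter_mul_prod_filter_not P (fun p : ℕ => (p : ℝ) ≤ W)]
    congr 1
    refine prod_congr ?_ fun _ _ => rfl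
    rw [hQ]
    exact filter_congr fun p _ => not_le
  rw [e3, hσ]
  ring

/-- from `log R ≤ y ^ (1 / E)` to `y ≥ C (log R) ^ E'` -/
theorem from_pow {E E' : ℝ} (hE : 0 < E) (hEE : E ≤ E') (y1 : ℕ) : ∃ C : ℝ, 0 < C ∧
    ∀ (R : ℝ) (y : ℕ), 2 ≤ R → C * Real.log R ^ E' ≤ y →
      y1 ≤ y ∧ Real.log R ≤ (y : ℝ) ^ (1 / E) := by
  have hl2 : 0 < Real.log 2 := Real.log_pos (by norm_num)
  have hE' : 0 < E' := by linarith
  refine ⟨max 1 ((y1 + 1) / Real.log 2 ^ E'), by positivity, fun R y hR hy => ?_⟩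
  set C : ℝ := max 1 ((y1 + 1) / Real.log 2 ^ E') with hC
  have hC1 : 1 ≤ C := le_max_left _ _
  have hlR : Real.log 2 ≤ Real.log R := Real.log_le_log (by norm_num) hR
  have hlR0 : 0 < Real.log R := by linarith
  have h1 : (y1 : ℝ) + 1 ≤ C * Real.log R ^ E' := by
    have h2 : (y1 + 1) / Real.log 2 ^ E' ≤ C := le_max_right _ _
    have h3 : Real.log 2 ^ E' ≤ Real.log R ^ E' := Real.rpow_le_rpow hl2.le hlR hE'.le
    have h4 : 0 < Real.log 2 ^ E' := by positivity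
    rw [div_le_iff₀ h4] at h2
    nlinarith
  have hyy : (y1 : ℝ) + 1 ≤ y := h1.trans hy
  have hy1 : (1 : ℝ) ≤ y := by
    have : (0 : ℝ) ≤ y1 := Nat.cast_nonneg _
    linarith
  refine ⟨by exact_mod_cast (by linarith : (y1 : ℝ) ≤ y), ?_⟩
  have hRy : Real.log R ^ E ≤ y := by
    rcases le_total 1 (Real.log R) with h1 | h1
    · have h2 : Real.log R ^ E ≤ Real.log R ^ E' := Real.rpow_le_rpow_of_exponent_le h1 hEE
      have h3 : 0 ≤ Real.log R ^ E' := by positivity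
      nlinarith
    · have h2 : Real.log R ^ E ≤ 1 := Real.rpow_le_one hlR0.le h1 hE.le
      linarith
  have h1 := Real.rpow_le_rpow (by positivity) hRy (by positivity : 0 ≤ 1 / E)
  rw [← Real.rpow_mul hlR0.le] at h1
  have e : E * (1 / E) = 1 := by field_simp
  rwa [e, Real.rpow_one] at h1

/-- **The barrier for squared sieve weights.** -/
theorem barrier (ε : ℝ) (hε : 0 < ε) : ∃ c C : ℝ, 0 < c ∧ 0 < C ∧ ∀ (R : ℝ) (y : ℕ), 2 ≤ R →
    C * Real.log R ^ (2 + ε) ≤ y → Bar c R y := by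
  set ε₀ : ℝ := min ε 1 with hε₀
  have hε₀0 : 0 < ε₀ := lt_min hε one_pos
  have hε₀1 : ε₀ ≤ 1 := min_le_right _ _
  have hε₀ε : ε₀ ≤ ε := min_le_left _ _
  set ε' : ℝ := ε₀ / 2 with hε'
  have hε'0 : 0 < ε' := by rw [hε']; linarith
  have hε'1 : ε' ≤ 1 := by rw [hε']; linarith
  obtain ⟨c1, hc1, Y0, HS⟩ := sub_low ε' hε'0 hε'1
  have hθ0 : 0 < 1 / (2 + ε') - 1 / (2 + ε₀) := by
    rw [sub_pos]
    exact one_div_lt_one_div_of_lt (by positivity) (by rw [hε']; linarith)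
  obtain ⟨y1, H⟩ := asm (a := 1 / (2 + ε')) (θ := 1 / (2 + ε') - 1 / (2 + ε₀)) (η := 1 / 4)
    (by positivity) (by rw [div_le_one (by positivity)]; linarith) hθ0
    hc1 (by norm_num) (by norm_num) Y0 HS
  obtain ⟨C, hC, HC⟩ := from_pow (E := 2 + ε₀) (E' := 2 + ε) (by positivity) (by linarith) y1
  refine ⟨(1 - 2 * (1 / 4)) * c1, C, by norm_num; exact hc1, hC, fun R y hR hy => ?_⟩
  obtain ⟨h1, h2⟩ := HC R y hR hy
  refine H y R h1 hR ?_
  have e : 1 / (2 + ε') - (1 / (2 + ε') - 1 / (2 + ε₀)) = 1 / (2 + ε₀) := by ring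
  rw [e]
  exact h2

theorem bar_mono {κ κ' R : ℝ} {y : ℕ} (h : Bar κ R y) (hk : κ' ≤ κ) : Bar κ' R y := by
  intro P hP I d f hf N hN hPN hIN
  refine le_trans ?_ (h P hP I d f hf N hN hPN hIN)
  have h1 : 0 ≤ ∏ p ∈ P, (1 - 1 / (p : ℝ)) := prod_nonneg fun p hp => by
    have : (2 : ℝ) ≤ p := by exact_mod_cast (hP p hp).two_le
    rw [sub_nonneg, div_le_one (by linarith)]; linarith
  have h2 : 0 ≤ ∑ n ∈ range N, (∑ i ∈ I, f i n) ^ 2 := sum_nonneg fun _ _ => sq_nonneg _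
  have h3 : 0 ≤ (y : ℝ) * ∏ p ∈ P, (1 - 1 / (p : ℝ)) := mul_nonneg (Nat.cast_nonneg y) h1
  exact mul_le_mul_of_nonneg_right (mul_le_mul_of_nonneg_right hk h3) h2

/-- **The sharp barrier for long intervals.** -/
theorem barrier2 (η : ℝ) (hη : 0 < η) : ∃ A C : ℝ, 0 < A ∧ 0 < C ∧ ∀ (R : ℝ) (y : ℕ), 2 ≤ R →
    C * Real.log R ^ A ≤ y → Bar (1 - η) R y := by
  classical
  set η' : ℝ := min η 1 / 4 with hη'
  have hη'0 : 0 < η' := by
    have : 0 < min η 1 := lt_min hη one_pos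
    rw [hη']
    linarith
  have hη'1 : η' ≤ 1 / 4 := by
    have : min η 1 ≤ 1 := min_le_right _ _
    rw [hη']
    linarith
  have hη'η : 4 * η' ≤ η := by
    have : min η 1 ≤ η := min_le_left _ _
    rw [hη']
    linarith
  obtain ⟨C0, K0, hC0, hK0, H⟩ := fl_int
  obtain ⟨cM, hcM, HM⟩ := prod_ge
  obtain ⟨b1, hb1⟩ := exists_pow_lt_of_lt_one (half_pos hη'0) (show (1 / 2 : ℝ) < 1 by norm_num)
  set b := max C0 b1 with hb
  have hbC : C0 ≤ b := le_max_left _ _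
  have hbη : (1 / 2 : ℝ) ^ b ≤ η' / 2 :=
    (pow_le_pow_of_le_one (by norm_num) (by norm_num) (le_max_right _ _)).trans hb1.le
  set u : ℝ := 2 * (4 * C0 * b + 1 : ℕ) with hu
  have hu2 : 2 ≤ u := by
    rw [hu]
    have : (1 : ℝ) ≤ ((4 * C0 * b + 1 : ℕ) : ℝ) := by exact_mod_cast (by omega)
    linarith
  have hu0 : 0 < u := by linarith
  have hK0' : (1 : ℝ) ≤ K0 := by exact_mod_cast hK0
  have hev1 : ∀ᶠ N : ℕ in Filter.atTop, 4 ≤ (N : ℝ) ^ (1 / u) :=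
    ((tendsto_rpow_atTop (by positivity)).comp tendsto_natCast_atTop_atTop).eventually_ge_atTop _
  have hev2 := ev_log (θ := 1 / 2) (B := 4 * K0 / (η' * cM)) (by norm_num)
  obtain ⟨Y0, hY0⟩ := Filter.eventually_atTop.1 (hev1.and (hev2.and (Filter.eventually_ge_atTop 3)))
  have HS : ∀ Y : ℕ, Y0 ≤ Y → ∀ (n : ℕ) (P : Finset ℕ),
      (∀ p ∈ P, p.Prime ∧ (p : ℝ) ≤ (Y : ℝ) ^ (1 / u)) →
      (1 - η') * (Y * ∏ p ∈ P, (1 - 1 / (p : ℝ))) ≤
      (((Icc 1 Y).filter (fun h => ∀ p ∈ P, ¬ p ∣ n + h)).card : ℝ) := by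
    intro Y hY n P hP
    obtain ⟨h4, hB, hY3⟩ := hY0 Y hY
    have hY3' : (3 : ℝ) ≤ Y := by exact_mod_cast hY3
    have hY0' : (0 : ℝ) < Y := by linarith
    have hY1 : (1 : ℝ) ≤ Y := by linarith
    set z : ℕ := ⌊(Y : ℝ) ^ (1 / u)⌋₊ with hz
    have hz3 : 3 ≤ z := by
      rw [hz, Nat.le_floor_iff (by positivity)]
      push_cast
      linarith
    have hzY : (z : ℝ) ≤ (Y : ℝ) ^ (1 / u) := Nat.floor_le (by positivity)
    have hPz : ∀ p ∈ P, p.Prime ∧ p ≤ z := fun p hp => ⟨(hP p hp).1, Nat.le_floor (hP p hp).2⟩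
    have h1 := H b hbC z hz3 P hPz n Y
    have h2 := (abs_le.1 h1).1
    set V : ℝ := ∏ p ∈ P, (1 - 1 / (p : ℝ)) with hV
    have hly : 0 < Real.log Y := Real.log_pos (by linarith)
    have hly1 : 1 ≤ Real.log Y := by
      rw [Real.le_log_iff_exp_le hY0']
      have := Real.exp_one_lt_d9
      linarith
    have hVlow : cM / Real.log Y ≤ V := by
      refine HM Y (by omega) P fun p hp => ⟨(hP p hp).1, ?_⟩
      have h5 : (Y : ℝ) ^ (1 / u) ≤ Y := by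
        calc (Y : ℝ) ^ (1 / u) ≤ (Y : ℝ) ^ (1 : ℝ) := by
              refine Real.rpow_le_rpow_of_exponent_le hY1 ?_
              rw [div_le_one hu0]
              linarith
          _ = Y := Real.rpow_one _
      exact_mod_cast (hP p hp).2.trans h5
    have h3 : 2 * K0 * (z : ℝ) ^ (4 * C0 * b + 1) ≤ η' / 2 * (Y * V) := by
      have h5 : (z : ℝ) ^ (4 * C0 * b + 1) ≤ (Y : ℝ) ^ (1 / 2 : ℝ) := by
        calc (z : ℝ) ^ (4 * C0 * b + 1) ≤ ((Y : ℝ) ^ (1 / u)) ^ (4 * C0 * b + 1) :=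
              pow_le_pow_left₀ (by positivity) hzY _
          _ = (Y : ℝ) ^ (1 / u * ((4 * C0 * b + 1 : ℕ) : ℝ)) := by
              rw [← Real.rpow_natCast, ← Real.rpow_mul hY0'.le]
          _ = (Y : ℝ) ^ (1 / 2 : ℝ) := by
              congr 1
              rw [hu]
              field_simp
      have h6 : Y * (cM / Real.log Y) ≤ Y * V := mul_le_mul_of_nonneg_left hVlow hY0'.le
      have h7 : (Y : ℝ) = (Y : ℝ) ^ (1 / 2 : ℝ) * (Y : ℝ) ^ (1 / 2 : ℝ) := by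
        rw [← Real.rpow_add hY0']
        norm_num
      have h8 : 0 < (Y : ℝ) ^ (1 / 2 : ℝ) := by positivity
      have h9 : 4 * K0 / (η' * cM) * Real.log Y ≤ (Y : ℝ) ^ (1 / 2 : ℝ) := by
        refine le_trans ?_ hB
        have h0 : 0 ≤ 4 * K0 / (η' * cM) := by positivity
        exact mul_le_mul_of_nonneg_left (by nlinarith) h0
      have h10 : 2 * K0 * (Y : ℝ) ^ (1 / 2 : ℝ) ≤ η' / 2 * (Y * (cM / Real.log Y)) := by
        rw [div_mul_eq_mul_div, div_le_iff₀ (by positivity)] at h9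
        have e : η' / 2 * (Y * (cM / Real.log Y)) = η' * cM * Y / (2 * Real.log Y) := by
          field_simp
        rw [e, le_div_iff₀ (by positivity)]
        calc 2 * K0 * (Y : ℝ) ^ (1 / 2 : ℝ) * (2 * Real.log Y) =
              (4 * K0 * Real.log Y) * (Y : ℝ) ^ (1 / 2 : ℝ) := by ring
          _ ≤ ((Y : ℝ) ^ (1 / 2 : ℝ) * (η' * cM)) * (Y : ℝ) ^ (1 / 2 : ℝ) :=
              mul_le_mul_of_nonneg_right h9 h8.le
          _ = η' * cM * ((Y : ℝ) ^ (1 / 2 : ℝ) * (Y : ℝ) ^ (1 / 2 : ℝ)) := by ring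
          _ = η' * cM * Y := by rw [← h7]
      calc 2 * K0 * (z : ℝ) ^ (4 * C0 * b + 1) ≤ 2 * K0 * (Y : ℝ) ^ (1 / 2 : ℝ) :=
            mul_le_mul_of_nonneg_left h5 (by positivity)
        _ ≤ η' / 2 * (Y * (cM / Real.log Y)) := h10
        _ ≤ η' / 2 * (Y * V) := mul_le_mul_of_nonneg_left h6 (by positivity)
    have hV0 : 0 < V := lt_of_lt_of_le (by positivity) hVlow
    have h11 : (1 / 2 : ℝ) ^ b * (Y * V) ≤ η' / 2 * (Y * V) :=
      mul_le_mul_of_nonneg_right hbη (by positivity)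
    linarith
  obtain ⟨y1, H1⟩ := asm (a := 1 / u) (θ := 1 / (2 * u)) (η := η') (by positivity)
    (by rw [div_le_one hu0]; linarith) (by positivity)
    (by linarith : 0 < 1 - η') hη'0 (by linarith) Y0 HS
  obtain ⟨C, hC, HC⟩ := from_pow (E := 2 * u) (E' := 2 * u) (by positivity) le_rfl y1
  refine ⟨2 * u, C, by positivity, hC, fun R y hR hy => ?_⟩
  obtain ⟨h1, h2⟩ := HC R y hR hy
  refine bar_mono (H1 y R h1 hR ?_) ?_
  · have e : 1 / u - 1 / (2 * u) = 1 / (2 * u) := by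
      field_simp
      ring
    rw [e]
    exact h2
  · nlinarith

end Pool.Agent.Y835.SB
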