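import Pool.Agent.Y835.SB.Fin2

/-!
One constant for every exponent beyond `2`, tending to `1`.
-/

set_option autoImplicit false

namespace Pool.Agent.Y835.SB

open Finset

/-- `κ` is admissible for the exponent `A` -/
def Adm (A κ : ℝ) : Prop := ∃ C : ℝ, 0 < C ∧ ∀ (R : ℝ) (y : ℕ), 2 ≤ R →
    C * Real.log R ^ A ≤ y → Bar κ R y

theorem adm_mono {A κ κ' : ℝ} (h : Adm A κ) (hk : κ' ≤ κ) : Adm A κ' := by
  obtain ⟨C, hC, H⟩ := h
  exact ⟨C, hC, fun R y hR hy => bar_mono (H R y hR hy) hk⟩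

theorem adm_exp {A A' κ : ℝ} (h : Adm A κ) (hA : A ≤ A') : Adm A' κ := by
  obtain ⟨C, hC, H⟩ := h
  have hl2 : 0 < Real.log 2 := Real.log_pos (by norm_num)
  have hp : 0 < Real.log 2 ^ (A' - A) := by positivity
  refine ⟨C / Real.log 2 ^ (A' - A), by positivity, fun R y hR hy => H R y hR ?_⟩
  refine le_trans ?_ hy
  have hlR : Real.log 2 ≤ Real.log R := Real.log_le_log (by norm_num) hR
  have hlR0 : 0 < Real.log R := by linarith
  have h1 : Real.log R ^ A' = Real.log R ^ A * Real.log R ^ (A' - A) := by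
    rw [← Real.rpow_add hlR0]
    congr 1
    ring
  have h2 : Real.log 2 ^ (A' - A) ≤ Real.log R ^ (A' - A) :=
    Real.rpow_le_rpow hl2.le hlR (by linarith)
  rw [h1, div_mul_eq_mul_div, le_div_iff₀ hp]
  have h3 : 0 ≤ C * Real.log R ^ A := by positivity
  calc C * Real.log R ^ A * Real.log 2 ^ (A' - A) ≤ C * Real.log R ^ A * Real.log R ^ (A' - A) :=
        mul_le_mul_of_nonneg_left h2 h3
    _ = _ := by ring

theorem adm_choice (A : ℝ) (hA : 2 < A) : ∃ κ : ℝ, Adm A κ ∧ 0 < κ ∧ κ ≤ 1 ∧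
    ∀ η : ℝ, 0 < η → Adm A (1 - η) → 1 - η - 1 / A ≤ κ := by
  obtain ⟨c, C, hc, hC, H⟩ := barrier (A - 2) (by linarith)
  have hcA : Adm A c := ⟨C, hC, fun R y hR hy => H R y hR (by
    have : 2 + (A - 2) = A := by ring
    rw [this]
    exact hy)⟩
  set G : Set ℝ := {κ | Adm A κ ∧ κ ≤ 1} with hG
  have hne : G.Nonempty := ⟨min c 1, adm_mono hcA (min_le_left _ _), min_le_right _ _⟩
  have hbdd : BddAbove G := ⟨1, fun κ hκ => hκ.2⟩
  obtain ⟨κ0, hκ0, hlt⟩ := exists_lt_of_lt_csSup hne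
    (by have : 0 < 1 / A := by positivity
        linarith : sSup G - 1 / A < sSup G)
  refine ⟨max κ0 (min c 1), ?_, ?_, ?_, ?_⟩
  · rcases le_total κ0 (min c 1) with h | h
    · rw [max_eq_right h]
      exact adm_mono hcA (min_le_left _ _)
    · rw [max_eq_left h]
      exact hκ0.1
  · exact lt_max_of_lt_right (lt_min hc one_pos)
  · exact max_le hκ0.2 (min_le_right _ _)
  · intro η hη hadm
    have h1 : 1 - η ≤ sSup G := le_csSup hbdd ⟨hadm, by linarith⟩
    refine le_trans ?_ (le_max_left _ _)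
    linarith

/-- all exponents beyond `2` at once -/
theorem barrier_all : ∃ c : ℝ → ℝ, (∀ A, 2 < A → 0 < c A) ∧
    Filter.Tendsto c Filter.atTop (nhds 1) ∧ ∀ A, 2 < A → Adm A (c A) := by
  classical
  choose! c hc1 hc2 hc3 hc4 using adm_choice
  refine ⟨c, hc2, ?_, hc1⟩
  rw [Metric.tendsto_nhds]
  intro ε hε
  obtain ⟨A0, C, hA0, hC, H⟩ := barrier2 (ε / 2) (by positivity)
  have hadm : Adm A0 (1 - ε / 2) := ⟨C, hC, H⟩
  have h1 : ∀ᶠ A : ℝ in Filter.atTop, 4 / ε ≤ A := Filter.eventually_ge_atTop _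
  filter_upwards [h1, Filter.eventually_ge_atTop A0, Filter.eventually_gt_atTop 2] with A h2 h3 h4
  have hA : 0 < A := by linarith
  have h5 := hc4 A h4 (ε / 2) (by positivity) (adm_exp hadm h3)
  have h6 := hc3 A h4
  have h7 : 1 / A ≤ ε / 4 := by
    rw [div_le_div_iff₀ hA (by norm_num)]
    rw [div_le_iff₀ hε] at h2
    linarith
  rw [Real.dist_eq, abs_lt]
  constructor <;> linarith

end Pool.Agent.Y835.SB
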