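import Pool.Agent.Y835.SB.Cnt
import Pool.Agent.Y835.SB.Mert
import Pool.Agent.W23.DC.Fin3
import Pool.Agent.W52.DC.PT
import Pool.Agent.W120.DC.LN
import Pool.Agent.W586.DC.ER
import Pool.Agent.W366.DC.SFX
import Pool.Agent.W505.DC.MT
import Pool.Agent.W505.DC.MI
import Pool.Agent.W378.DC.MP

/-!
The lower bound of the linear sieve for an interval and all primes `p < Y ^ ζ`, `ζ < 1/2`.
-/

set_option autoImplicit false

namespace Pool.Agent.Y835.SB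

open Finset
open Pool.Agent.W23.DC

theorem le_of_tt {N p : ℕ} (hN : 2 ≤ N) (hp : 1 ≤ p) {a : ℝ} (h : a ≤ tt N p) :
    (N : ℝ) ^ a ≤ p := by
  have hN1 : (1 : ℝ) < N := by exact_mod_cast (by omega : 1 < N)
  have hL : 0 < Real.log N := Real.log_pos hN1
  have hp0 : (0 : ℝ) < p := by exact_mod_cast hp
  unfold tt at h
  rw [le_div_iff₀ hL] at h
  rw [Real.rpow_def_of_pos (by linarith), ← Real.exp_log hp0]
  exact Real.exp_le_exp.2 (by linarith)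

theorem lt_of_tt {N p : ℕ} (hN : 2 ≤ N) (hp : 1 ≤ p) {a : ℝ} (h : (p : ℝ) < (N : ℝ) ^ a) :
    tt N p < a := by
  by_contra hc
  exact absurd (le_of_tt hN hp (not_lt.1 hc)) (not_le.2 h)

theorem tt_of_le {N p : ℕ} (hN : 2 ≤ N) (hp : 1 ≤ p) {a : ℝ} (h : (N : ℝ) ^ a ≤ p) :
    a ≤ tt N p := by
  have hN1 : (1 : ℝ) < N := by exact_mod_cast (by omega : 1 < N)
  have hL : 0 < Real.log N := Real.log_pos hN1
  have hp0 : (0 : ℝ) < p := by exact_mod_cast hp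
  unfold tt
  rw [le_div_iff₀ hL, ← Real.log_rpow (by linarith)]
  exact Real.log_le_log (Real.rpow_pos_of_pos (by linarith) _) h

open Classical in
/-- Mertens for the weights `1/p` -/
theorem mer1 (ε₁ w η : ℝ) (hε : 0 < ε₁) (hw : w ≤ 1) (hη : 0 < η) :
    ∃ N₀ : ℕ, ∀ N : ℕ, N₀ ≤ N → Mer (pr N ε₁ w) (tt N) (fun p => 1 / (p : ℝ)) ε₁ w η := by
  obtain ⟨N₁, h1⟩ := mer_of Pool.Agent.W378.DC.MP ε₁ w (η / 2) hε hw (by positivity)
  set B : ℝ := |Real.log (w / ε₁)| + η / 2 with hB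
  have hB0 : 0 < B := by positivity
  have hev : ∀ᶠ N : ℕ in Filter.atTop, 2 * B / η ≤ (N : ℝ) ^ ε₁ :=
    ((tendsto_rpow_atTop hε).comp tendsto_natCast_atTop_atTop).eventually_ge_atTop _
  obtain ⟨N₂, h2⟩ := Filter.eventually_atTop.1 hev
  refine ⟨max N₁ (max N₂ 2), fun N hN a b ha hab hb => ?_⟩
  have hN1 : N₁ ≤ N := (le_max_left _ _).trans hN
  have hN2 : N₂ ≤ N := ((le_max_left _ _).trans (le_max_right _ _)).trans hN
  have hN3 : 2 ≤ N := ((le_max_right _ _).trans (le_max_right _ _)).trans hN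
  have h3 := h1 N hN1 a b ha hab hb
  have h4 := h2 N hN2
  set Q := (pr N ε₁ w).filter (fun p => a ≤ tt N p ∧ tt N p < b) with hQ
  have hQm : ∀ p ∈ Q, p.Prime ∧ (N : ℝ) ^ ε₁ ≤ p := by
    intro p hp
    have h5 := mem_pr.1 (mem_filter.1 hp).1
    exact ⟨h5.2.1, le_of_tt hN3 h5.1.1 h5.2.2.1⟩
  have hZ : 0 < (N : ℝ) ^ ε₁ := lt_of_lt_of_le (by positivity) h4
  have h5 : |∑ p ∈ Q, 1 / ((p : ℝ) - 1) - ∑ p ∈ Q, 1 / (p : ℝ)| ≤
      ((N : ℝ) ^ ε₁)⁻¹ * ∑ p ∈ Q, 1 / ((p : ℝ) - 1) := by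
    rw [← sum_sub_distrib, mul_sum, abs_of_nonneg]
    · refine sum_le_sum fun p hp => ?_
      obtain ⟨h6, h7⟩ := hQm p hp
      have h8 : (2 : ℝ) ≤ p := by exact_mod_cast h6.two_le
      have h9 : (0 : ℝ) < p - 1 := by linarith
      have h10 : (0 : ℝ) < p := by linarith
      have e : 1 / ((p : ℝ) - 1) - 1 / p = (p : ℝ)⁻¹ * (1 / ((p : ℝ) - 1)) := by
        field_simp
        ring
      rw [e]
      exact mul_le_mul_of_nonneg_right (inv_anti₀ hZ h7) (by positivity)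
    · refine sum_nonneg fun p hp => ?_
      have h8 : (2 : ℝ) ≤ p := by exact_mod_cast (hQm p hp).1.two_le
      rw [sub_nonneg]
      exact one_div_le_one_div_of_le (by linarith) (by linarith)
  have ha0 : 0 < a := lt_of_lt_of_le hε ha
  have hb0 : 0 < b := lt_of_lt_of_le ha0 hab
  have hw0 : 0 < w := lt_of_lt_of_le hb0 hb
  have h6 : ∑ p ∈ Q, 1 / ((p : ℝ) - 1) ≤ B := by
    have h7 := (abs_le.1 h3).2
    have h8 : Real.log (b / a) ≤ Real.log (w / ε₁) := by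
      apply Real.log_le_log (by positivity)
      gcongr
    have h9 := le_abs_self (Real.log (w / ε₁))
    linarith
  have h7 : ((N : ℝ) ^ ε₁)⁻¹ * ∑ p ∈ Q, 1 / ((p : ℝ) - 1) ≤ η / 2 := by
    have h8 : ((N : ℝ) ^ ε₁)⁻¹ * ∑ p ∈ Q, 1 / ((p : ℝ) - 1) ≤ ((N : ℝ) ^ ε₁)⁻¹ * B :=
      mul_le_mul_of_nonneg_left h6 (by positivity)
    refine h8.trans ?_
    rw [inv_mul_le_iff₀ hZ]
    rw [div_le_iff₀ hη] at h4
    linarith
  have h8 : |∑ p ∈ Q, 1 / (p : ℝ) - Real.log (b / a)| ≤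
      |∑ p ∈ Q, 1 / ((p : ℝ) - 1) - ∑ p ∈ Q, 1 / (p : ℝ)| +
      |∑ p ∈ Q, 1 / ((p : ℝ) - 1) - Real.log (b / a)| := by
    have e : ∑ p ∈ Q, 1 / (p : ℝ) - Real.log (b / a) =
      (∑ p ∈ Q, 1 / ((p : ℝ) - 1) - Real.log (b / a)) -
        (∑ p ∈ Q, 1 / ((p : ℝ) - 1) - ∑ p ∈ Q, 1 / (p : ℝ)) := by ring
    rw [e]
    have := abs_sub (∑ p ∈ Q, 1 / ((p : ℝ) - 1) - Real.log (b / a))
      (∑ p ∈ Q, 1 / ((p : ℝ) - 1) - ∑ p ∈ Q, 1 / (p : ℝ))
    linarith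
  linarith

/-- the elements of `EE` are at most `Y ^ τ` -/
theorem EE_le {Y : ℕ} (hY : 2 ≤ Y) {u v τ ζ : ℝ} (hτ : 0 ≤ τ) {e : ℕ}
    (he : e ∈ EE (pr Y u v) (tt Y) τ ζ) : (e : ℝ) ≤ (Y : ℝ) ^ τ := by
  obtain ⟨h0, hsq, hpf, hw⟩ := mem_EE he
  have hY1 : (1 : ℝ) < Y := by exact_mod_cast (by omega : 1 < Y)
  have hL : 0 < Real.log Y := Real.log_pos hY1
  obtain ⟨x, y, hxy, hx, hy⟩ := hw τ 0 hτ le_rfl (by ring)
  have hy1 : y = 1 := by
    by_contra hne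
    obtain ⟨p, hp, hpy⟩ := Nat.exists_prime_and_dvd hne
    have hy0 : y ≠ 0 := by
      rintro rfl
      exact h0 (by rw [← hxy, mul_zero])
    have h1 : p ∈ y.primeFactors := Nat.mem_primeFactors.2 ⟨hp, hpy, hy0⟩
    have h2 : ∀ q ∈ y.primeFactors, 0 < tt Y q := by
      intro q hq
      exact div_pos (Real.log_pos (by exact_mod_cast (Nat.prime_of_mem_primeFactors hq).one_lt)) hL
    have h3 : 0 < sz (tt Y) y := sum_pos h2 ⟨p, h1⟩
    linarith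
  rw [hy1, mul_one] at hxy
  rw [hxy] at hx
  have h1 : Real.log e = Real.log Y * sz (tt Y) e := by
    unfold sz tt
    rw [mul_sum]
    have h2 : ∀ p ∈ e.primeFactors, Real.log Y * (Real.log p / Real.log Y) = Real.log p := by
      intro p _
      field_simp
    rw [sum_congr rfl h2, ← Real.log_prod]
    · congr 1
      rw [← Nat.cast_prod, Nat.prod_primeFactors_of_squarefree hsq]
    · intro p hp
      exact_mod_cast (Nat.prime_of_mem_primeFactors hp).ne_zero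
  have he0 : (0 : ℝ) < e := by exact_mod_cast Nat.pos_of_ne_zero h0
  rw [Real.rpow_def_of_pos (by linarith), ← Real.exp_log he0, h1]
  exact Real.exp_le_exp.2 (mul_le_mul_of_nonneg_left hx hL.le)

/-- the sum of `1/e` over `EE` -/
theorem EE_sum {Y : ℕ} {u v τ ζ : ℝ} :
    ∑ e ∈ EE (pr Y u v) (tt Y) τ ζ, 1 / (e : ℝ) ≤ Real.exp (∑ p ∈ pr Y u v, 1 / (p : ℝ)) := by
  classical
  have h1 : ∑ e ∈ EE (pr Y u v) (tt Y) τ ζ, 1 / (e : ℝ) =
      ∑ s ∈ (EE (pr Y u v) (tt Y) τ ζ).image Nat.primeFactors, ∏ p ∈ s, 1 / (p : ℝ) := by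
    rw [sum_image]
    · refine sum_congr rfl fun e he => ?_
      rw [prod_div_distrib, prod_const_one, ← Nat.cast_prod,
        Nat.prod_primeFactors_of_squarefree (mem_EE he).2.1]
    · intro e he e' he' h
      rw [← Nat.prod_primeFactors_of_squarefree (mem_EE he).2.1,
        ← Nat.prod_primeFactors_of_squarefree (mem_EE he').2.1, h]
  have h2 : (EE (pr Y u v) (tt Y) τ ζ).image Nat.primeFactors ⊆ (pr Y u v).powerset := by
    intro s hs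
    rw [mem_image] at hs
    obtain ⟨e, he, rfl⟩ := hs
    rw [mem_powerset]
    intro p hp
    unfold EE at he
    rw [mem_filter, mem_image] at he
    obtain ⟨⟨s, hs, rfl⟩, _⟩ := he
    rw [mem_powerset] at hs
    have h3 := Nat.mem_primeFactors.1 hp
    obtain ⟨q, hq, hpq⟩ := (h3.1.prime.dvd_finsetProd_iff _).1 h3.2.1
    have h4 := (mem_filter.1 (hs hq)).1
    rw [(Nat.prime_dvd_prime_iff_eq h3.1 (mem_pr.1 h4).2.1).1 hpq]
    exact h4
  have h3 : ∀ s : Finset ℕ, 0 ≤ ∏ p ∈ s, 1 / (p : ℝ) :=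
    fun s => prod_nonneg fun p _ => one_div_nonneg.2 (Nat.cast_nonneg p)
  rw [h1]
  have h4 : ∑ s ∈ (EE (pr Y u v) (tt Y) τ ζ).image Nat.primeFactors, ∏ p ∈ s, 1 / (p : ℝ) ≤
      ∑ s ∈ (pr Y u v).powerset, ∏ p ∈ s, 1 / (p : ℝ) :=
    sum_le_sum_of_subset_of_nonneg h2 fun s _ _ => h3 s
  refine h4.trans ?_
  rw [← Finset.prod_one_add, Real.exp_sum]
  refine prod_le_prod (fun p _ => add_nonneg zero_le_one (one_div_nonneg.2 (Nat.cast_nonneg p)))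
    fun p _ => ?_
  rw [add_comm]
  exact Real.add_one_le_exp (1 / (p : ℝ))

end Pool.Agent.Y835.SB
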