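import Pool.Agent.Y835.SB.Lin

/-!
The lower bound of the linear sieve for an interval: assembly.
-/

set_option autoImplicit false

namespace Pool.Agent.Y835.SB

open Finset
open Pool.Agent.W23.DC

/-- the choice of the parameter `b` -/
theorem ex_b (C0 : ℕ) {ζ f0 δ : ℝ} (hf : 0 < f0) (hδ : 0 < δ) :
    ∃ b : ℕ, C0 ≤ b ∧ 2 ≤ b ∧ (1 / 2 : ℝ) ^ b * (16 * (b : ℝ) ^ 4 * ζ) ≤ f0 ∧
      1 / (b : ℝ) ^ 2 * (4 * C0 * b + 1) ≤ δ / 2 := by
  have h1 : Filter.Tendsto (fun b : ℕ => 16 * ζ * ((b : ℝ) ^ 4 * (1 / 2 : ℝ) ^ b)) Filter.atTop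
      (nhds (16 * ζ * 0)) :=
    (tendsto_pow_const_mul_const_pow_of_abs_lt_one 4 (by rw [abs_of_pos] <;> norm_num)).const_mul _
  rw [mul_zero] at h1
  have h2 := h1.eventually_le_const hf
  have h3 : ∀ᶠ b : ℕ in Filter.atTop, 2 * (4 * C0 + 1) / δ ≤ (b : ℝ) :=
    tendsto_natCast_atTop_atTop.eventually_ge_atTop _
  obtain ⟨b, hb⟩ := (h2.and (h3.and ((Filter.eventually_ge_atTop C0).and
    (Filter.eventually_ge_atTop 2)))).exists
  obtain ⟨h4, h5, h6, h7⟩ := hb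
  refine ⟨b, h6, h7, ?_, ?_⟩
  · calc _ = 16 * ζ * ((b : ℝ) ^ 4 * (1 / 2 : ℝ) ^ b) := by ring
      _ ≤ f0 := h4
  · have hb1 : (1 : ℝ) ≤ b := by exact_mod_cast (by omega : 1 ≤ b)
    have hb0 : (0 : ℝ) < b := by linarith
    rw [div_le_iff₀ hδ] at h5
    rw [div_mul_eq_mul_div, one_mul, div_le_iff₀ (by positivity)]
    have h8 : (4 * C0 * b + 1 : ℝ) ≤ (4 * C0 + 1) * b := by nlinarith
    nlinarith

open Classical in
/-- the linear sieve: a lower bound for the integers of an interval of length `Y` without prime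
factors below `Y ^ ζ` -/
theorem lin_low (ζ : ℝ) (hζ1 : 1 / 4 ≤ ζ) (hζ2 : ζ < 1 / 2) : ∃ c : ℝ, 0 < c ∧ ∃ Y0 : ℕ,
    ∀ Y : ℕ, Y0 ≤ Y → ∀ n : ℕ, c * (Y / Real.log Y) ≤
      (((Icc 1 Y).filter (fun h => ∀ p : ℕ, p.Prime → (p : ℝ) < (Y : ℝ) ^ ζ → ¬ p ∣ n + h)).card : ℝ) := by
  obtain ⟨A0, F, f, hS⟩ := Pool.Agent.W366.DC.SFX
  obtain ⟨C0, K0, hC0, hK0, HR⟩ := rcount
  obtain ⟨cM, hcM, HM⟩ := prod_ge
  set τ : ℝ := (1 + 2 * ζ) / 2 with hτ
  set δ : ℝ := (1 - 2 * ζ) / 2 with hδ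
  have hζ0 : 0 < ζ := by linarith
  have hδ0 : 0 < δ := by rw [hδ]; linarith
  have hτδ : τ = 1 - δ := by rw [hτ, hδ]; ring
  have hτ0 : 0 < τ := by rw [hτ]; linarith
  have hτ1 : τ ≤ 1 := by rw [hτ]; linarith
  have h2ζ : 2 * ζ ≤ τ := by rw [hτ]; linarith
  have hs2 : 2 < τ / ζ := by rw [lt_div_iff₀ hζ0, hτ]; linarith
  have hs4 : τ / ζ ≤ 4 := by rw [div_le_iff₀ hζ0]; linarith
  have hA0 := hS.pos
  have hf0 : 0 < f (τ / ζ) := by
    rw [hS.f4 _ hs2.le hs4]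
    have : 0 < Real.log (τ / ζ - 1) := Real.log_pos (by linarith)
    positivity
  set f0 : ℝ := f (τ / ζ) with hf0d
  obtain ⟨b, hbC, hb2, hb3, hb4⟩ := ex_b C0 (ζ := ζ) hf0 hδ0
  have hb2' : (2 : ℝ) ≤ b := by exact_mod_cast hb2
  have hb0 : (0 : ℝ) < b := by linarith
  set ε₁ : ℝ := 1 / (b : ℝ) ^ 2 with hε₁
  have hε0 : 0 < ε₁ := by rw [hε₁]; positivity
  have hε4 : ε₁ ≤ 1 / 4 := by
    rw [hε₁]
    exact one_div_le_one_div_of_le (by norm_num) (by nlinarith)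
  have hC0' : (1 : ℝ) ≤ C0 := by exact_mod_cast hC0
  have hK0' : (1 : ℝ) ≤ K0 := by exact_mod_cast hK0
  have hεδ : ε₁ < δ / 2 := by
    have h1 : ε₁ * 2 ≤ ε₁ * (4 * C0 * b + 1) :=
      mul_le_mul_of_nonneg_left (by nlinarith) hε0.le
    linarith
  -- the constants
  set c1 : ℝ := ε₁ / ζ * f0 with hc1
  have hc10 : 0 < c1 := by positivity
  have hbb : (1 / 2 : ℝ) ^ b * (2 / ε₁) ≤ c1 / 8 := by
    have e1 : (1 / 2 : ℝ) ^ b * (2 / ε₁) = (1 / 2 : ℝ) ^ b * (16 * (b : ℝ) ^ 4 * ζ) * (ε₁ / ζ / 8) := by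
      rw [hε₁]
      field_simp
      ring
    rw [e1]
    have h2 := mul_le_mul_of_nonneg_right hb3 (by positivity : 0 ≤ ε₁ / ζ / 8)
    refine h2.trans (le_of_eq ?_)
    rw [hc1]
    ring
  obtain ⟨η, hη, HMT⟩ := Pool.Agent.W505.DC.MT Pool.Agent.W505.DC.MI A0 F f hS ε₁ (c1 / 2) ⌈1 / ε₁⌉₊ hε0
    (by linarith) (by positivity)
  obtain ⟨N1, hN1⟩ := mer1 ε₁ ζ (min η 1) hε0 (by linarith) (lt_min hη one_pos)
  have hev1 : ∀ᶠ N : ℕ in Filter.atTop, 4 ≤ (N : ℝ) ^ ε₁ :=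
    ((tendsto_rpow_atTop hε0).comp tendsto_natCast_atTop_atTop).eventually_ge_atTop _
  have hev2 : ∀ᶠ N : ℕ in Filter.atTop, 4 * K0 / (c1 / 8) ≤ (N : ℝ) ^ (δ / 2 - ε₁) :=
    ((tendsto_rpow_atTop (sub_pos.2 hεδ)).comp tendsto_natCast_atTop_atTop).eventually_ge_atTop _
  obtain ⟨N2, hN2⟩ := Filter.eventually_atTop.1 (hev1.and hev2)
  refine ⟨c1 / 4 * cM, by positivity, max N1 (max N2 3), fun Y hY n => ?_⟩
  have hYN1 : N1 ≤ Y := (le_max_left _ _).trans hY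
  have hYN2 : N2 ≤ Y := ((le_max_left _ _).trans (le_max_right _ _)).trans hY
  have hY3 : 3 ≤ Y := ((le_max_right _ _).trans (le_max_right _ _)).trans hY
  have hY2 : 2 ≤ Y := by omega
  obtain ⟨hz4, hyK⟩ := hN2 Y hYN2
  have hMer := hN1 Y hYN1
  have hY1 : (1 : ℝ) < Y := by exact_mod_cast (by omega : 1 < Y)
  have hY0 : (0 : ℝ) < Y := by linarith
  have hlY : 0 < Real.log Y := Real.log_pos hY1
  set z : ℕ := ⌊(Y : ℝ) ^ ε₁⌋₊ with hz
  have hz3 : 3 ≤ z := by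
    rw [hz, Nat.le_floor_iff (by positivity)]
    push_cast
    linarith
  have hzY : (z : ℝ) ≤ (Y : ℝ) ^ ε₁ := Nat.floor_le (by positivity)
  set PS : Finset ℕ := (Icc 1 z).filter (fun p : ℕ => p.Prime ∧ (p : ℝ) < (Y : ℝ) ^ ε₁) with hPS
  have hPSm : ∀ p ∈ PS, p.Prime ∧ p ≤ z := fun p hp =>
    ⟨(mem_filter.1 hp).2.1, (mem_Icc.1 (mem_filter.1 hp).1).2⟩
  set V : ℝ := ∏ p ∈ PS, (1 - 1 / (p : ℝ)) with hV
  have hVlow : cM / Real.log z ≤ V := HM z (by omega) PS hPSm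
  have hz1 : (1 : ℝ) < z := by exact_mod_cast (by omega : 1 < z)
  have hlz : 0 < Real.log z := Real.log_pos hz1
  have hlzY : Real.log z ≤ Real.log Y := by
    have h1 : Real.log z ≤ Real.log ((Y : ℝ) ^ ε₁) := Real.log_le_log (by linarith) hzY
    rw [Real.log_rpow hY0] at h1
    nlinarith
  have hVY : cM / Real.log Y ≤ V := (div_le_div_of_nonneg_left hcM.le hlz hlzY).trans hVlow
  have hV0 : 0 < V := lt_of_lt_of_le (by positivity) hVY
  have hVz : 1 / (z : ℝ) ≤ V :=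
    Pool.Agent.W41.V_ge (fun p hp => (hPSm p hp).1) (by omega) (fun p hp => (hPSm p hp).2)
  set X : ℝ := Y * V with hX
  have hX0 : 0 < X := by positivity
  set P := pr Y ε₁ ζ with hP
  have hsiz : Siz P (tt Y) := siz hY2 _ _
  set K : ℕ := ⌈1 / ε₁⌉₊ with hK
  set g : ℕ → ℝ := fun p => 1 / (p : ℝ) with hg
  set B : Finset ℕ := (Icc 1 Y).filter (fun h => ∀ p ∈ PS, ¬ p ∣ n + h) with hB
  set r : ℕ → ℝ := fun e => (∑ h ∈ B, ind (n + h) e) - X * (1 / (e : ℝ)) with hr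
  -- the pointwise inequality, summed
  have e1 : ∑ h ∈ B, LL P (tt Y) (ind (n + h)) K false τ ζ 1 ≤
      (((Icc 1 Y).filter (fun h => ∀ p : ℕ, p.Prime → (p : ℝ) < (Y : ℝ) ^ ζ → ¬ p ∣ n + h)).card : ℝ) := by
    have h1 : ∀ h ∈ B, LL P (tt Y) (ind (n + h)) K false τ ζ 1 ≤
        if ∀ p : ℕ, p.Prime → (p : ℝ) < (Y : ℝ) ^ ζ → ¬ p ∣ n + h then (1 : ℝ) else 0 := by
      intro h hh
      have h2 := (Pool.Agent.W52.DC.PT P (tt Y) hsiz (n + h) K τ ζ 1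
        (fun p hp _ h => (hsiz.pr p hp).one_lt.ne' (Nat.dvd_one.1 h))).2
      refine le_trans h2 ?_
      split_ifs with h3 h4 h4
      · exact le_rfl
      · exfalso
        apply h4
        intro p hp hpY
        by_cases h5 : (p : ℝ) < (Y : ℝ) ^ ε₁
        · refine (mem_filter.1 hh).2 p ?_
          rw [hPS, mem_filter, mem_Icc]
          exact ⟨⟨hp.pos, Nat.le_floor h5.le⟩, hp, h5⟩
        · have h6 : tt Y p < ζ := lt_of_tt hY2 hp.pos hpY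
          refine h3.2 p ?_ h6
          rw [hP, mem_pr]
          refine ⟨⟨hp.pos, ?_⟩, hp, tt_of_le hY2 hp.pos (not_lt.1 h5), h6⟩
          have h7 : (Y : ℝ) ^ ζ ≤ Y := by
            calc (Y : ℝ) ^ ζ ≤ (Y : ℝ) ^ (1 : ℝ) :=
                  Real.rpow_le_rpow_of_exponent_le hY1.le (by linarith)
              _ = Y := Real.rpow_one _
          exact_mod_cast (hpY.le.trans h7)
      · norm_num
      · exact le_rfl
    refine (sum_le_sum h1).trans ?_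
    rw [sum_boole]
    exact_mod_cast card_le_card (filter_subset_filter _ (filter_subset _ _))
  have e2 : ∑ h ∈ B, LL P (tt Y) (ind (n + h)) K false τ ζ 1 =
      X * MM P (tt Y) g K false τ ζ + LL P (tt Y) r K false τ ζ 1 := by
    rw [← Pool.Agent.W120.DC.LN.1 P (tt Y) B (fun h => ind (n + h)) K false τ ζ 1]
    have h1 : (fun e => ∑ h ∈ B, ind (n + h) e) =
        (fun e => X * (fun e : ℕ => 1 / (e : ℝ)) e + r e) := by
      funext e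
      rw [hr]
      ring
    have h2 := Pool.Agent.W120.DC.LN.2.2 P (tt Y) hsiz g (fun e : ℕ => 1 / (e : ℝ))
      (fun d p _ _ => by
        simp only [hg]
        push_cast
        rw [one_div_mul_one_div]) K false τ ζ 1
      (fun p hp _ h => (hsiz.pr p hp).one_lt.ne' (Nat.dvd_one.1 h))
    rw [h1, Pool.Agent.W120.DC.LN.2.1 P (tt Y) X (fun e : ℕ => 1 / (e : ℝ)) r K false τ ζ 1, h2]
    norm_num
  have e3 : |LL P (tt Y) r K false τ ζ 1| ≤ ∑ e ∈ EE P (tt Y) τ ζ, |r (1 * e)| :=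
    Pool.Agent.W586.DC.ER P (tt Y) hsiz r K false τ ζ 1 hτ0.le (fun _ => h2ζ)
  -- the error terms
  have e4 : ∀ e ∈ EE P (tt Y) τ ζ, |r (1 * e)| ≤ (1 / 2 : ℝ) ^ b * X * (1 / (e : ℝ)) +
      4 * K0 * (z : ℝ) ^ (4 * C0 * b + 1) := by
    intro e he
    obtain ⟨h0, hsq, hpf, hw⟩ := mem_EE he
    have h1 := HR b hbC z hz3 PS hPSm e (Nat.pos_of_ne_zero h0) (fun p hp hpe => by
      have h2 := (hpf p (Nat.mem_primeFactors.2 ⟨(hPSm p hp).1, hpe, h0⟩)).1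
      have h3 := le_of_tt hY2 (hPSm p hp).1.pos h2
      exact absurd (mem_filter.1 hp).2.2 (not_lt.2 h3)) n Y
    have h2 : ∑ h ∈ B, ind (n + h) e =
        (((Icc 1 Y).filter (fun h => e ∣ n + h ∧ ∀ p ∈ PS, ¬ p ∣ n + h)).card : ℝ) := by
      unfold ind
      rw [sum_boole, hB, filter_filter]
      congr 2
      refine filter_congr fun h _ => and_comm
    rw [one_mul]
    have h3 : r e = (((Icc 1 Y).filter (fun h => e ∣ n + h ∧ ∀ p ∈ PS, ¬ p ∣ n + h)).card : ℝ) -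
        (Y : ℝ) / e * V := by
      simp only [hr]
      rw [h2, hX]
      ring
    rw [h3]
    refine h1.trans (le_of_eq ?_)
    rw [hX]
    ring
  have e5 : ∑ e ∈ EE P (tt Y) τ ζ, |r (1 * e)| ≤ (1 / 2 : ℝ) ^ b * X * (2 / ε₁) +
      (Y : ℝ) ^ τ * (4 * K0 * (z : ℝ) ^ (4 * C0 * b + 1)) := by
    refine (sum_le_sum e4).trans ?_
    rw [sum_add_distrib, ← mul_sum, sum_const, nsmul_eq_mul]
    have h1 : ∑ e ∈ EE P (tt Y) τ ζ, 1 / (e : ℝ) ≤ 2 / ε₁ := by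
      have h2 : ∑ e ∈ EE P (tt Y) τ ζ, 1 / (e : ℝ) ≤ Real.exp (∑ p ∈ P, 1 / (p : ℝ)) := EE_sum
      refine h2.trans ?_
      have h3 := hMer ε₁ ζ le_rfl (by linarith) le_rfl
      rw [pr_sub Y ε₁ ζ ε₁ ζ le_rfl le_rfl] at h3
      have h4 := (abs_le.1 h3).2
      have h5 : min η 1 ≤ 1 := min_le_right _ _
      have h6 : ∑ p ∈ P, 1 / (p : ℝ) ≤ 1 + Real.log (ζ / ε₁) := by
        have : ∑ p ∈ P, 1 / (p : ℝ) - Real.log (ζ / ε₁) ≤ min η 1 := h4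
        linarith
      refine (Real.exp_le_exp.2 h6).trans ?_
      rw [Real.exp_add, Real.exp_log (by positivity)]
      have h7 := Real.exp_one_lt_d9
      have h8 : Real.exp 1 * (ζ / ε₁) = Real.exp 1 * ζ / ε₁ := by ring
      rw [h8]
      refine div_le_div_of_nonneg_right ?_ hε0.le
      nlinarith [Real.exp_pos 1]
    have h2 : ((EE P (tt Y) τ ζ).card : ℝ) ≤ (Y : ℝ) ^ τ := by
      have h3 : EE P (tt Y) τ ζ ⊆ Icc 1 ⌊(Y : ℝ) ^ τ⌋₊ := by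
        intro e he
        rw [mem_Icc]
        exact ⟨Nat.pos_of_ne_zero (mem_EE he).1, Nat.le_floor (EE_le hY2 hτ0.le he)⟩
      have h4 := card_le_card h3
      rw [Nat.card_Icc, Nat.add_sub_cancel] at h4
      have h5 : ((EE P (tt Y) τ ζ).card : ℝ) ≤ (⌊(Y : ℝ) ^ τ⌋₊ : ℝ) := by exact_mod_cast h4
      exact h5.trans (Nat.floor_le (by positivity))
    have h3 : 0 ≤ (1 / 2 : ℝ) ^ b * X := by positivity
    have h4 : 0 ≤ 4 * K0 * (z : ℝ) ^ (4 * C0 * b + 1) := by positivity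
    exact add_le_add (mul_le_mul_of_nonneg_left h1 h3) (mul_le_mul_of_nonneg_right h2 h4)
  have e6 : (Y : ℝ) ^ τ * (4 * K0 * (z : ℝ) ^ (4 * C0 * b + 1)) ≤ c1 / 8 * X := by
    have h1 : (z : ℝ) ^ (4 * C0 * b + 1) ≤ (Y : ℝ) ^ (δ / 2) := by
      calc (z : ℝ) ^ (4 * C0 * b + 1) ≤ ((Y : ℝ) ^ ε₁) ^ (4 * C0 * b + 1) :=
            pow_le_pow_left₀ (by positivity) hzY _
        _ = (Y : ℝ) ^ (ε₁ * ((4 * C0 * b + 1 : ℕ) : ℝ)) := by
            rw [← Real.rpow_natCast, ← Real.rpow_mul hY0.le]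
        _ ≤ (Y : ℝ) ^ (δ / 2) := by
            refine Real.rpow_le_rpow_of_exponent_le hY1.le ?_
            push_cast
            exact hb4
    have h2 : (Y : ℝ) ^ τ * (4 * K0 * (z : ℝ) ^ (4 * C0 * b + 1)) ≤
        4 * K0 * (Y : ℝ) ^ (1 - δ / 2) := by
      have e : (Y : ℝ) ^ (1 - δ / 2) = (Y : ℝ) ^ τ * (Y : ℝ) ^ (δ / 2) := by
        rw [← Real.rpow_add hY0, hτδ]
        congr 1
        ring
      rw [e]
      have : 0 ≤ (Y : ℝ) ^ τ * (4 * K0) := by positivity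
      nlinarith [mul_le_mul_of_nonneg_left h1 this]
    refine h2.trans ?_
    have h3 : (Y : ℝ) ^ (1 - ε₁) ≤ X := by
      have h4 : (Y : ℝ) ^ (1 - ε₁) = Y * ((Y : ℝ) ^ ε₁)⁻¹ := by
        rw [Real.rpow_sub hY0, Real.rpow_one, div_eq_mul_inv]
      rw [h4, hX]
      refine mul_le_mul_of_nonneg_left ?_ hY0.le
      refine le_trans ?_ hVz
      rw [one_div]
      exact inv_anti₀ (by linarith) hzY
    have h4 : (Y : ℝ) ^ (1 - ε₁) = (Y : ℝ) ^ (1 - δ / 2) * (Y : ℝ) ^ (δ / 2 - ε₁) := by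
      rw [← Real.rpow_add hY0]
      congr 1
      ring
    have h5 : 4 * K0 ≤ c1 / 8 * (Y : ℝ) ^ (δ / 2 - ε₁) := by
      rw [div_le_iff₀ (by positivity)] at hyK
      linarith
    calc 4 * K0 * (Y : ℝ) ^ (1 - δ / 2) ≤ c1 / 8 * (Y : ℝ) ^ (δ / 2 - ε₁) * (Y : ℝ) ^ (1 - δ / 2) :=
          mul_le_mul_of_nonneg_right h5 (by positivity)
      _ = c1 / 8 * (Y : ℝ) ^ (1 - ε₁) := by rw [h4]; ring
      _ ≤ c1 / 8 * X := mul_le_mul_of_nonneg_left h3 (by positivity)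
  have e7 : c1 / 2 ≤ MM P (tt Y) g K false τ ζ := by
    have hKε : τ ≤ (K + 2) * ε₁ := by
      have h1 : 1 / ε₁ ≤ K := Nat.le_ceil _
      have h2 : 1 / ε₁ * ε₁ = 1 := by field_simp
      nlinarith
    have hMer' : Mer P (tt Y) g ε₁ ζ η := fun a b ha hab hb =>
      (hMer a b ha hab hb).trans (min_le_left _ _)
    have h1 := (HMT P (tt Y) g ζ (by linarith) (fun p _ => by
      simp only [hg]
      exact one_div_nonneg.2 (Nat.cast_nonneg p)) (fun p hp => (mem_pr.1 hp).2.2.1)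
      hMer' K le_rfl τ ζ hKε (by linarith) le_rfl (by linarith) hτ1).2 h2ζ
    linarith
  -- conclusion
  have e8 := (abs_le.1 e3).1
  have e9 : (1 / 2 : ℝ) ^ b * X * (2 / ε₁) ≤ c1 / 8 * X := by
    have := mul_le_mul_of_nonneg_right hbb hX0.le
    linarith
  have e10 : c1 / 2 * X ≤ X * MM P (tt Y) g K false τ ζ := by
    have := mul_le_mul_of_nonneg_left e7 hX0.le
    linarith
  have e11 : c1 / 4 * X ≤ ∑ h ∈ B, LL P (tt Y) (ind (n + h)) K false τ ζ 1 := by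
    rw [e2]
    linarith
  refine le_trans ?_ (e11.trans e1)
  have e12 : cM * (Y / Real.log Y) ≤ X := by
    rw [hX]
    have := mul_le_mul_of_nonneg_left hVY hY0.le
    calc cM * (Y / Real.log Y) = Y * (cM / Real.log Y) := by ring
      _ ≤ Y * V := this
  calc c1 / 4 * cM * (Y / Real.log Y) = c1 / 4 * (cM * (Y / Real.log Y)) := by ring
    _ ≤ c1 / 4 * X := mul_le_mul_of_nonneg_left e12 (by positivity)

end Pool.Agent.Y835.SB
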