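import Pool.Agent.Y835.SB.Site

/-!
The recursion over the large primes for one site, and the sum over the sites.
-/

set_option autoImplicit false

namespace Pool.Agent.Y835.SB

open Finset

/-- the coordinates at the primes of `Q` -/
structure Dat (N : ℕ) (M K : ℕ → ℕ) (Q : Finset ℕ) : Prop where
  pr : ∀ p ∈ Q, p.Prime
  mul : ∀ p ∈ Q, M p * K p = N
  pow : ∀ p ∈ Q, ∃ k : ℕ, 1 ≤ k ∧ K p = p ^ k
  ndvd : ∀ p ∈ Q, ¬ p ∣ M p
  dvd : ∀ p ∈ Q, ∀ q ∈ Q, q ≠ p → q ∣ M p

theorem Dat.sub {N : ℕ} {M K : ℕ → ℕ} {Q Q' : Finset ℕ} (h : Dat N M K Q) (hs : Q' ⊆ Q) :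
    Dat N M K Q' :=
  ⟨fun p hp => h.pr p (hs hp), fun p hp => h.mul p (hs hp), fun p hp => h.pow p (hs hp),
    fun p hp => h.ndvd p (hs hp), fun p hp q hq => h.dvd p (hs hp) q (hs hq)⟩

theorem Dat.Kpos {N : ℕ} {M K : ℕ → ℕ} {Q : Finset ℕ} (h : Dat N M K Q) {p : ℕ} (hp : p ∈ Q) :
    0 < K p := by
  obtain ⟨k, _, hk⟩ := h.pow p hp
  rw [hk]
  exact pow_pos (h.pr p hp).pos k

/-- the mass of the component of `F` at the prime `p` on the points that `p` hits at the site `h` -/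
noncomputable def yy (N : ℕ) (M K : ℕ → ℕ) (F : ℕ → ℝ) (h p : ℕ) : ℝ :=
  ∑ n ∈ range N, if p ∣ n + h then (F n - Av (M p) (K p) F n) ^ 2 else 0

theorem yy_nonneg (N : ℕ) (M K : ℕ → ℕ) (F : ℕ → ℝ) (h p : ℕ) : 0 ≤ yy N M K F h p :=
  sum_nonneg fun _ _ => by split_ifs <;> positivity

open Classical in
/-- the unhit mass at the site `h` -/
noncomputable def XX (N : ℕ) (F s : ℕ → ℝ) (h : ℕ) (Q : Finset ℕ) : ℝ :=
  ∑ n ∈ range N, F n ^ 2 * (s n * if ∀ p ∈ Q, ¬ p ∣ n + h then 1 else 0)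

theorem XX_nonneg (N : ℕ) {F s : ℕ → ℝ} (hs : ∀ n, 0 ≤ s n) (h : ℕ) (Q : Finset ℕ) :
    0 ≤ XX N F s h Q :=
  sum_nonneg fun n _ => mul_nonneg (sq_nonneg _) (mul_nonneg (hs n) (by split_ifs <;> norm_num))

open Classical in
theorem XX_insert (N : ℕ) (F s : ℕ → ℝ) (h p : ℕ) (Q : Finset ℕ) :
    XX N F s h (insert p Q) = ∑ n ∈ range N, (if p ∣ n + h then 0 else F n ^ 2) *
      (s n * if ∀ q ∈ Q, ¬ q ∣ n + h then 1 else 0) := by
  unfold XX
  refine sum_congr rfl fun n _ => ?_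
  by_cases h1 : p ∣ n + h
  · have h2 : ¬ ∀ q ∈ insert p Q, ¬ q ∣ n + h := fun h3 => h3 p (mem_insert_self p Q) h1
    rw [if_neg h2, if_pos h1]
    ring
  · rw [if_neg h1]
    congr 2
    refine if_congr ?_ rfl rfl
    constructor
    · intro h3 q hq
      exact h3 q (mem_insert_of_mem hq)
    · intro h3 q hq
      rcases mem_insert.1 hq with h4 | h4
      · rw [h4]; exact h1
      · exact h3 q h4

open Classical in
theorem XX_step {N : ℕ} {M K : ℕ → ℕ} {F s : ℕ → ℝ} (hF : Function.Periodic F N)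
    (hs0 : ∀ n, 0 ≤ s n) (hs1 : ∀ n, s n ≤ 1) (h : ℕ) {p : ℕ} {Q : Finset ℕ} (hp : p ∉ Q)
    (hD : Dat N M K (insert p Q)) (hs : Function.Periodic s (M p)) {τ : ℝ} (hτ : 0 < τ) :
    (1 - 1 / (p : ℝ)) * ((1 - τ / p) * XX N F s h Q - (1 + 4 / τ) * yy N M K F h p) ≤
      XX N F s h (insert p Q) := by
  have hpQ := mem_insert_self p Q
  obtain ⟨k, hk, hK⟩ := hD.pow p hpQ
  have hpp := hD.pr p hpQ
  have hU : Function.Periodic (fun n => s n * if ∀ q ∈ Q, ¬ q ∣ n + h then (1 : ℝ) else 0) (M p) := by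
    intro n
    have h1 : (∀ q ∈ Q, ¬ q ∣ n + M p + h) ↔ (∀ q ∈ Q, ¬ q ∣ n + h) := by
      refine forall₂_congr fun q hq => not_congr ?_
      have h2 : q ∣ M p := hD.dvd p hpQ q (mem_insert_of_mem hq) (fun h3 => hp (h3 ▸ hq))
      have e : n + M p + h = n + h + M p := by ring
      rw [e]
      exact (Nat.dvd_add_iff_left h2).symm
    beta_reduce
    rw [hs n]
    congr 1
    exact if_congr h1 rfl rfl
  have hU0 : ∀ n, 0 ≤ s n * if ∀ q ∈ Q, ¬ q ∣ n + h then (1 : ℝ) else 0 :=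
    fun n => mul_nonneg (hs0 n) (by split_ifs <;> norm_num)
  have h1 := step hpp (hD.mul p hpQ) hK hk (hD.ndvd p hpQ) hF hU hU0 h hτ
  rw [XX_insert]
  refine le_trans ?_ h1
  have hp1 : 0 ≤ 1 - 1 / (p : ℝ) := by
    have : (1 : ℝ) ≤ p := by exact_mod_cast hpp.one_lt.le
    rw [sub_nonneg, div_le_one (by linarith)]
    exact this
  refine mul_le_mul_of_nonneg_left ?_ hp1
  have h2 : ∑ n ∈ range N, (if p ∣ n + h then (F n - Av (M p) (K p) F n) ^ 2 else 0) *
      (s n * if ∀ q ∈ Q, ¬ q ∣ n + h then (1 : ℝ) else 0) ≤ yy N M K F h p := by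
    unfold yy
    refine sum_le_sum fun n _ => ?_
    have h3 : 0 ≤ if p ∣ n + h then (F n - Av (M p) (K p) F n) ^ 2 else 0 := by
      split_ifs <;> positivity
    have h4 : s n * (if ∀ q ∈ Q, ¬ q ∣ n + h then (1 : ℝ) else 0) ≤ 1 := by
      split_ifs
      · rw [mul_one]; exact hs1 n
      · rw [mul_zero]; norm_num
    exact mul_le_of_le_one_right h3 h4
  have h5 : 0 ≤ 1 + 4 / τ := by positivity
  have h6 := mul_le_mul_of_nonneg_left h2 h5
  unfold XX
  linarith

theorem yy_zero {N : ℕ} {M K : ℕ → ℕ} {F : ℕ → ℝ} {p : ℕ} (hK : 0 < K p)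
    (hF : Function.Periodic F (M p)) (h : ℕ) : yy N M K F h p = 0 := by
  unfold yy
  refine sum_eq_zero fun n _ => ?_
  rw [Av_of_per hK hF]
  simp

theorem XX_step0 {N : ℕ} {M K : ℕ → ℕ} {F s : ℕ → ℝ} (hF : Function.Periodic F N)
    (hs0 : ∀ n, 0 ≤ s n) (hs1 : ∀ n, s n ≤ 1) (h : ℕ) {p : ℕ} {Q : Finset ℕ} (hp : p ∉ Q)
    (hD : Dat N M K (insert p Q)) (hs : Function.Periodic s (M p)) (hFp : Function.Periodic F (M p)) :
    (1 - 1 / (p : ℝ)) * XX N F s h Q ≤ XX N F s h (insert p Q) := by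
  have hX := XX_nonneg N (F := F) hs0 h Q
  have hpp := hD.pr p (mem_insert_self p Q)
  have hp1 : (1 : ℝ) ≤ p := by exact_mod_cast hpp.one_lt.le
  have hp0 : (0 : ℝ) < p := by linarith
  refine le_of_forall_pos_le_add fun ε hε => ?_
  set X := XX N F s h Q with hXd
  have hX1 : 0 < X + 1 := by linarith
  have h1 := XX_step hF hs0 hs1 h hp hD hs (τ := ε / (X + 1)) (by positivity)
  rw [yy_zero (hD.Kpos (mem_insert_self p Q)) hFp, mul_zero, sub_zero] at h1
  have h2 : (1 - 1 / (p : ℝ)) * (ε / (X + 1) / p * X) ≤ ε := by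
    have h3 : ε / (X + 1) / p * X ≤ ε := by
      have h4 : ε / (X + 1) / p ≤ ε / (X + 1) := div_le_self (by positivity) hp1
      have h5 : ε / (X + 1) * X ≤ ε := by
        rw [div_mul_eq_mul_div, div_le_iff₀ hX1]
        nlinarith
      nlinarith
    have h6 : 0 ≤ ε / (X + 1) / p * X := by positivity
    have h7 : 1 - 1 / (p : ℝ) ≤ 1 := by
      have : 0 ≤ 1 / (p : ℝ) := by positivity
      linarith
    nlinarith
  nlinarith

open Classical in
/-- the recursion -/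
theorem site {N : ℕ} {M K : ℕ → ℕ} {F s : ℕ → ℝ} (hF : Function.Periodic F N)
    (hs0 : ∀ n, 0 ≤ s n) (hs1 : ∀ n, s n ≤ 1) (h : ℕ) {τ : ℝ} (hτ : 0 < τ) (hτ1 : τ ≤ 1)
    (L : ℕ → ℝ) (hL : ∀ p, 0 ≤ L p) (R : ℝ) (Q : Finset ℕ) : Dat N M K Q →
    (∀ p ∈ Q, Function.Periodic s (M p)) →
    (∀ p ∈ Q, 1 ≤ (∏ q ∈ Q.filter (fun q => q < p), (1 - 1 / (q : ℝ))) * L p) →
    (∀ p ∈ Q, R < (p : ℝ) → Function.Periodic F (M p)) →
    (∏ p ∈ Q, (1 - 1 / (p : ℝ))) *
      ((1 - ∑ p ∈ Q.filter (fun p : ℕ => (p : ℝ) ≤ R), τ / p) * XX N F s h ∅ -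
      (1 + 4 / τ) * ∑ p ∈ Q.filter (fun p : ℕ => (p : ℝ) ≤ R), L p * yy N M K F h p) ≤
      XX N F s h Q := by
  induction Q using Finset.induction_on_max with
  | empty =>
    intro _ _ _ _
    simp
  | insert p Q hmax ih =>
    intro hD hs hLp hRp
    have hpQ : p ∉ Q := fun h1 => lt_irrefl _ (hmax p h1)
    have hsub : Q ⊆ insert p Q := subset_insert p Q
    have hfil : ∀ q ∈ Q, (insert p Q).filter (fun r => r < q) = Q.filter (fun r => r < q) := by
      intro q hq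
      rw [filter_insert, if_neg (by have := hmax q hq; omega)]
    have hfilp : (insert p Q).filter (fun r => r < p) = Q := by
      rw [filter_insert, if_neg (lt_irrefl _), filter_true_of_mem hmax]
    have ih1 := ih (hD.sub hsub) (fun q hq => hs q (hsub hq)) (fun q hq => by
      have := hLp q (hsub hq)
      rwa [hfil q hq] at this) (fun q hq => hRp q (hsub hq))
    have hLpp := hLp p (mem_insert_self p Q)
    rw [hfilp] at hLpp
    have hpp := hD.pr p (mem_insert_self p Q)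
    have hp2 : (2 : ℝ) ≤ p := by exact_mod_cast hpp.two_le
    have hp0 : (0 : ℝ) < p := by linarith
    have hd1 : 0 ≤ 1 - 1 / (p : ℝ) := by
      rw [sub_nonneg, div_le_one hp0]; linarith
    set δ : ℝ := ∏ q ∈ Q, (1 - 1 / (q : ℝ)) with hδ
    have hδ0 : 0 ≤ δ := by
      refine prod_nonneg fun q hq => ?_
      have : (2 : ℝ) ≤ q := by exact_mod_cast (hD.pr q (hsub hq)).two_le
      rw [sub_nonneg, div_le_one (by linarith)]; linarith
    set A : ℝ := ∑ q ∈ Q.filter (fun q : ℕ => (q : ℝ) ≤ R), τ / q with hA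
    set E : ℝ := ∑ q ∈ Q.filter (fun q : ℕ => (q : ℝ) ≤ R), L q * yy N M K F h q with hE
    have hA0 : 0 ≤ A := sum_nonneg fun _ _ => by positivity
    have hE0 : 0 ≤ E := sum_nonneg fun q _ => mul_nonneg (hL q) (yy_nonneg _ _ _ _ _ _)
    have hX0 : 0 ≤ XX N F s h ∅ := XX_nonneg N hs0 h ∅
    have hc : 0 < 1 + 4 / τ := by positivity
    rw [prod_insert hpQ, ← hδ]
    by_cases hR : (p : ℝ) ≤ R
    · rw [filter_insert, if_pos hR, sum_insert (fun h1 => hpQ (mem_filter.1 h1).1),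
        sum_insert (fun h1 => hpQ (mem_filter.1 h1).1), ← hA, ← hE]
      have h1 := XX_step hF hs0 hs1 h hpQ hD (hs p (mem_insert_self p Q)) hτ
      refine le_trans ?_ h1
      rw [mul_assoc]
      refine mul_le_mul_of_nonneg_left ?_ hd1
      have hy := yy_nonneg N M K F h p
      have h2 : yy N M K F h p ≤ δ * (L p * yy N M K F h p) := by
        rw [← mul_assoc]
        exact le_mul_of_one_le_left hy hLpp
      have hτp : 0 ≤ 1 - τ / p := by
        rw [sub_nonneg, div_le_one hp0]; linarith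
      have hτp' : 0 ≤ τ / p := by positivity
      have h3 := mul_le_mul_of_nonneg_left ih1 hτp
      have h4 : (1 - A) * XX N F s h ∅ - (1 + 4 / τ) * E ≤ XX N F s h ∅ := by
        nlinarith [mul_nonneg hA0 hX0, mul_nonneg hc.le hE0]
      have h5 : δ * ((1 - (τ / p + A)) * XX N F s h ∅ - (1 + 4 / τ) * E) ≤
          (1 - τ / p) * (δ * ((1 - A) * XX N F s h ∅ - (1 + 4 / τ) * E)) := by
        have h6 : τ / p * ((1 - A) * XX N F s h ∅ - (1 + 4 / τ) * E) ≤ τ / p * XX N F s h ∅ :=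
          mul_le_mul_of_nonneg_left h4 hτp'
        have h7 := mul_le_mul_of_nonneg_left h6 hδ0
        linarith
      have h8 := mul_le_mul_of_nonneg_left h2 hc.le
      calc δ * ((1 - (τ / p + A)) * XX N F s h ∅ - (1 + 4 / τ) * (L p * yy N M K F h p + E))
          = δ * ((1 - (τ / p + A)) * XX N F s h ∅ - (1 + 4 / τ) * E) -
            (1 + 4 / τ) * (δ * (L p * yy N M K F h p)) := by ring
        _ ≤ (1 - τ / p) * XX N F s h Q - (1 + 4 / τ) * yy N M K F h p := by linarith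
    · rw [filter_insert, if_neg hR, ← hA, ← hE]
      have h1 := XX_step0 hF hs0 hs1 h hpQ hD (hs p (mem_insert_self p Q))
        (hRp p (mem_insert_self p Q) (not_le.1 hR))
      refine le_trans ?_ h1
      rw [mul_assoc]
      exact mul_le_mul_of_nonneg_left ih1 hd1

open Classical in
/-- the number of sites hit by `p` -/
theorem hits_le (p n y : ℕ) (hp : 0 < p) :
    ((((Icc 1 y).filter (fun h => p ∣ n + h)).card : ℕ) : ℝ) ≤ y / p + 1 := by
  have h1 : ((Icc 1 y).filter (fun h => p ∣ n + h)).card ≤ y / p + 1 := by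
    have h2 : ((Icc 1 y).filter (fun h => p ∣ n + h)).card ≤
        (Icc (n / p + 1) ((n + y) / p)).card := by
      refine card_le_card_of_injOn (fun h => (n + h) / p) ?_ ?_
      · intro h hh
        rw [mem_coe, mem_filter, mem_Icc] at hh
        rw [mem_coe, mem_Icc]
        obtain ⟨⟨h3, h4⟩, c, hc⟩ := hh
        have e : (n + h) / p = c := by rw [hc]; exact Nat.mul_div_cancel_left c hp
        beta_reduce
        rw [e]
        constructor
        · have : n / p < c := by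
            rw [Nat.div_lt_iff_lt_mul hp, mul_comm]
            omega
          omega
        · rw [Nat.le_div_iff_mul_le hp, mul_comm]
          omega
      · intro h hh h' hh' heq
        rw [mem_coe, mem_filter] at hh hh'
        obtain ⟨_, c, hc⟩ := hh
        obtain ⟨_, c', hc'⟩ := hh'
        have e : (n + h) / p = c := by rw [hc]; exact Nat.mul_div_cancel_left c hp
        have e' : (n + h') / p = c' := by rw [hc']; exact Nat.mul_div_cancel_left c' hp
        simp only at heq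
        rw [e, e'] at heq
        rw [← heq] at hc'
        omega
    refine h2.trans ?_
    rw [Nat.card_Icc]
    have h5 : (n + y) / p ≤ n / p + y / p + 1 := by
      rw [Nat.add_div hp]
      split_ifs <;> omega
    rw [Nat.add_sub_add_right]
    exact Nat.sub_le_iff_le_add.2 (by linarith)
  have h3 : ((((Icc 1 y).filter (fun h => p ∣ n + h)).card : ℕ) : ℝ) ≤ ((y / p : ℕ) : ℝ) + 1 := by
    exact_mod_cast h1
  have h4 : ((y / p : ℕ) : ℝ) ≤ (y : ℝ) / p := Nat.cast_div_le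
  linarith

end Pool.Agent.Y835.SB
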