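import Pool.Agent.Y835.SB.Avg

/-!
The fibre inequality, and the recursion over the primes for one site.
-/

set_option autoImplicit false

namespace Pool.Agent.Y835.SB

open Finset

/-- the inequality on one fibre -/
theorem fib {K p : ℕ} (hp : 2 ≤ p) (g : ℕ → ℝ) (Z : Finset ℕ) (hZ : Z ⊆ range K)
    (hc : Z.card * p = K) (hK : 0 < K) {τ : ℝ} (hτ : 0 < τ) :
    (1 - 1 / (p : ℝ)) * ((1 - τ / p) * ∑ t ∈ range K, g t ^ 2 -
      (1 + 4 / τ) * ∑ t ∈ Z, (g t - (∑ t ∈ range K, g t) / K) ^ 2) ≤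
      ∑ t ∈ range K \ Z, g t ^ 2 := by
  set c : ℝ := (∑ t ∈ range K, g t) / K with hcdef
  have hK0 : (0 : ℝ) < K := by exact_mod_cast hK
  have hp2 : (2 : ℝ) ≤ p := by exact_mod_cast hp
  have hp0 : (0 : ℝ) < p := by linarith
  have hcard : (Z.card : ℝ) * p = K := by exact_mod_cast hc
  set m : ℝ := (Z.card : ℝ) with hm
  have hm0 : 0 < m := by
    by_contra h
    have : m * p ≤ 0 := mul_nonpos_of_nonpos_of_nonneg (not_lt.1 h) hp0.le
    linarith
  set A : ℝ := ∑ t ∈ Z, (g t - c) with hA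
  set B : ℝ := ∑ t ∈ Z, (g t - c) ^ 2 with hB
  set G : ℝ := ∑ t ∈ range K, (g t - c) ^ 2 with hG
  have hGB : B ≤ G := sum_le_sum_of_subset_of_nonneg hZ fun _ _ _ => sq_nonneg _
  have hB0 : 0 ≤ B := sum_nonneg fun _ _ => sq_nonneg _
  have hs : ∑ t ∈ range K, g t = c * K := by rw [hcdef]; field_simp
  have hs0 : ∑ t ∈ range K, (g t - c) = 0 := by
    rw [sum_sub_distrib, sum_const, card_range, nsmul_eq_mul, hs]; ring
  have hsq : ∑ t ∈ range K, g t ^ 2 = c ^ 2 * K + G := by
    have : ∑ t ∈ range K, g t ^ 2 = G + 2 * c * ∑ t ∈ range K, (g t - c) + K * c ^ 2 := by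
      have e : (K : ℝ) * c ^ 2 = ∑ _t ∈ range K, c ^ 2 := by
        rw [sum_const, card_range, nsmul_eq_mul]
      rw [e, mul_sum, hG, ← sum_add_distrib, ← sum_add_distrib]
      exact sum_congr rfl fun t _ => by ring
    rw [this, hs0]; ring
  have hZsq : ∑ t ∈ Z, g t ^ 2 = B + 2 * c * A + m * c ^ 2 := by
    have e : m * c ^ 2 = ∑ _t ∈ Z, c ^ 2 := by
      rw [sum_const, nsmul_eq_mul]
    rw [e, mul_sum, hB, ← sum_add_distrib, ← sum_add_distrib]
    exact sum_congr rfl fun t _ => by ring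
  have hrest : ∑ t ∈ range K \ Z, g t ^ 2 = c ^ 2 * K + G - (B + 2 * c * A + m * c ^ 2) := by
    have := sum_sdiff hZ (f := fun t => g t ^ 2)
    linarith
  have hcs : A ^ 2 ≤ m * B := sq_sum_le_card_mul_sum_sq
  rw [hrest, hsq]
  have hKm : (K : ℝ) = m * p := hcard.symm
  rw [hKm]
  -- clear denominators
  have hx : (1 - 1 / (p : ℝ)) * ((1 - τ / p) * (c ^ 2 * (m * p) + G) - (1 + 4 / τ) * B) ≤
      (1 - 1 / (p : ℝ)) * (c ^ 2 * (m * p) + G) - (1 - 1 / (p : ℝ)) * (τ * c ^ 2 * m)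
        - (1 - 1 / (p : ℝ)) * ((1 + 4 / τ) * B) := by
    have h1 : 0 ≤ 1 - 1 / (p : ℝ) := by
      rw [sub_nonneg, div_le_one hp0]; linarith
    have h2 : (1 - τ / p) * (c ^ 2 * (m * p) + G) ≤ (c ^ 2 * (m * p) + G) - τ * c ^ 2 * m := by
      have : (1 - τ / p) * (c ^ 2 * (m * p) + G) =
          (c ^ 2 * (m * p) + G) - τ * c ^ 2 * m - τ / p * G := by
        field_simp
        ring
      rw [this]
      have : 0 ≤ τ / p * G := mul_nonneg (by positivity) (hB0.trans hGB)
      linarith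
    have := mul_le_mul_of_nonneg_left h2 h1
    linarith
  refine hx.trans ?_
  have h4 : 2 * c * A ≤ 1 / 2 * (τ * c ^ 2 * m) + 2 / τ * B := by
    have h5 : 0 ≤ (τ * m * c - 2 * A) ^ 2 := sq_nonneg _
    have h6 : 4 * (τ * m) * (c * A) ≤ (τ * m) ^ 2 * c ^ 2 + 4 * A ^ 2 := by nlinarith
    have h7 : 4 * (τ * m) * (c * A) ≤ (τ * m) ^ 2 * c ^ 2 + 4 * (m * B) := by linarith
    have h8 : (2 * (τ * m)) * (2 * c * A) ≤ (2 * (τ * m)) * (1 / 2 * (τ * c ^ 2 * m) + 2 / τ * B) := by
      have : (2 * (τ * m)) * (1 / 2 * (τ * c ^ 2 * m) + 2 / τ * B) =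
          (τ * m) ^ 2 * c ^ 2 + 4 * (m * B) := by
        field_simp
        ring
      rw [this]
      linarith
    exact le_of_mul_le_mul_left h8 (mul_pos two_pos (mul_pos hτ hm0))
  have h9 : 1 / (p : ℝ) ≤ 1 / 2 := one_div_le_one_div_of_le (by norm_num) hp2
  have h10 : (0 : ℝ) ≤ 1 / p := by positivity
  have h11 : 1 / (p : ℝ) * (c ^ 2 * (m * p)) = c ^ 2 * m := by field_simp
  have h12 : 0 ≤ τ * c ^ 2 * m := mul_nonneg (mul_nonneg hτ.le (sq_nonneg c)) hm0.le
  have h13 : 0 ≤ 2 / τ * B := mul_nonneg (by positivity) hB0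
  have h14 : (4 : ℝ) / τ = 2 * (2 / τ) := by ring
  have h15 : (1 - 1 / (p : ℝ)) * (c ^ 2 * (m * p) + G) =
      c ^ 2 * (m * p) + G - c ^ 2 * m - 1 / (p : ℝ) * G := by
    rw [sub_mul, mul_add (1 / (p : ℝ)), h11]; ring
  rw [h15, h14]
  set u : ℝ := 1 / (p : ℝ) with hu
  set X : ℝ := τ * c ^ 2 * m with hX
  set Y : ℝ := 2 / τ * B with hY
  have h16 : (1 + 2 * (2 / τ)) * B = B + 2 * Y := by rw [hY]; ring
  rw [h16]
  have h17 : u * B ≤ u * G := mul_le_mul_of_nonneg_left hGB h10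
  nlinarith [mul_nonneg (sub_nonneg.2 h9) h12, mul_nonneg (sub_nonneg.2 h9) h13]

open Classical in
/-- the number of points of a fibre that are hit -/
theorem fib_card {K M p k : ℕ} (hp : p.Prime) (hK : K = p ^ k) (hk : 1 ≤ k) (hM : ¬ p ∣ M) (a : ℕ) :
    ((range K).filter (fun t => p ∣ a + M * t)).card * p = K := by
  have hKp : p ∣ K := by
    rw [hK]
    exact dvd_pow_self p (by omega)
  set φ : ℕ → ℝ := fun t => if p ∣ a + M * t then 1 else 0 with hφ
  have hper : Function.Periodic φ K := by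
    intro t
    have e : a + M * (t + K) = a + M * t + M * K := by ring
    have h1 : (p ∣ a + M * (t + K)) ↔ (p ∣ a + M * t) := by
      rw [e]
      exact (Nat.dvd_add_iff_left (hKp.mul_left M)).symm
    simp only [hφ]
    exact if_congr h1 rfl rfl
  have h1 : ∀ t : ℕ, ∑ r ∈ range p, φ (t + r) = 1 := by
    intro t
    have : Fact p.Prime := ⟨hp⟩
    have hM0 : (M : ZMod p) ≠ 0 := by
      rw [Ne, ZMod.natCast_eq_zero_iff]
      exact hM
    set r0 : ℕ := (-((a + M * t : ℕ) : ZMod p) * (M : ZMod p)⁻¹).val with hr0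
    have hr0p : r0 < p := ZMod.val_lt _
    have key : ∀ r : ℕ, p ∣ a + M * (t + r) ↔ (r : ZMod p) = (r0 : ZMod p) := by
      intro r
      rw [← ZMod.natCast_eq_zero_iff, hr0, ZMod.natCast_zmod_val]
      push_cast
      constructor
      · intro h
        have h2 : (M : ZMod p) * r = -(a + M * t) := by linear_combination h
        rw [← h2]
        field_simp
      · intro h
        rw [h]
        field_simp
        ring
    have h2 : ∀ r ∈ range p, φ (t + r) = if r = r0 then 1 else 0 := by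
      intro r hr
      rw [mem_range] at hr
      simp only [hφ]
      refine if_congr ?_ rfl rfl
      rw [key r, ZMod.natCast_eq_natCast_iff, Nat.ModEq, Nat.mod_eq_of_lt hr, Nat.mod_eq_of_lt hr0p]
    rw [sum_congr rfl h2, sum_ite_eq', if_pos (mem_range.2 hr0p)]
  have h2 : ∑ t ∈ range K, ∑ r ∈ range p, φ (t + r) = K := by
    rw [sum_congr rfl fun t _ => h1 t, sum_const, card_range, nsmul_eq_mul, mul_one]
  rw [sum_comm, sum_congr rfl fun r _ => sum_shift hper r, sum_const, card_range, nsmul_eq_mul] at h2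
  have h3 : ∑ t ∈ range K, φ t = (((range K).filter (fun t => p ∣ a + M * t)).card : ℝ) := by
    simp only [hφ]
    rw [sum_ite, sum_const_zero, add_zero, sum_const, nsmul_eq_mul, mul_one]
  rw [h3] at h2
  have h4 : p * ((range K).filter (fun t => p ∣ a + M * t)).card = K := by exact_mod_cast h2
  rw [mul_comm]
  exact h4

open Classical in
/-- one step of the recursion -/
theorem step {N M K p k : ℕ} (hp : p.Prime) (hN : M * K = N) (hK : K = p ^ k) (hk : 1 ≤ k)
    (hM : ¬ p ∣ M) {F U : ℕ → ℝ} (hF : Function.Periodic F N) (hU : Function.Periodic U M)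
    (hU0 : ∀ n, 0 ≤ U n) (h : ℕ) {τ : ℝ} (hτ : 0 < τ) :
    (1 - 1 / (p : ℝ)) * ((1 - τ / p) * ∑ n ∈ range N, F n ^ 2 * U n -
      (1 + 4 / τ) * ∑ n ∈ range N, (if p ∣ n + h then (F n - Av M K F n) ^ 2 else 0) * U n) ≤
      ∑ n ∈ range N, (if p ∣ n + h then 0 else F n ^ 2) * U n := by
  have hK0 : 0 < K := by rw [hK]; exact pow_pos hp.pos k
  have hKr : (0 : ℝ) < K := by exact_mod_cast hK0
  have hpK : p ∣ K := by rw [hK]; exact dvd_pow_self p (by omega)
  have hpN : p ∣ N := by rw [← hN]; exact hpK.mul_left M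
  have hUN : Function.Periodic U N := by
    intro n
    rw [← hN, mul_comm]
    have := hU.nat_mul K n
    rwa [Nat.cast_id] at this
  have hdv : ∀ n : ℕ, (p ∣ n + N + h) ↔ (p ∣ n + h) := by
    intro n
    have e : n + N + h = n + h + N := by ring
    rw [e]
    exact (Nat.dvd_add_iff_left hpN).symm
  have hA : Function.Periodic (Av M K F) M := Av_perM (hN ▸ hF)
  have hAN : Function.Periodic (Av M K F) N := Av_per hF
  have hAt : ∀ n t, Av M K F (n + M * t) = Av M K F n := by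
    intro n t
    have := hA.nat_mul t n
    rwa [Nat.cast_id, mul_comm] at this
  have e1 : ∑ n ∈ range N, F n ^ 2 * U n =
      ∑ n ∈ range N, (∑ t ∈ range K, F (n + M * t) ^ 2) / K * U n := by
    rw [← sum_Av (M := M) hK0 (F := fun n => F n ^ 2 * U n) (fun n => by simp only [hF n, hUN n])]
    refine sum_congr rfl fun n _ => ?_
    rw [Av_mul hU]
    rfl
  have e2 : ∑ n ∈ range N, (if p ∣ n + h then (F n - Av M K F n) ^ 2 else 0) * U n =
      ∑ n ∈ range N, (∑ t ∈ (range K).filter (fun t => p ∣ (n + h) + M * t),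
        (F (n + M * t) - (∑ t ∈ range K, F (n + M * t)) / K) ^ 2) / K * U n := by
    rw [← sum_Av (M := M) hK0
      (F := fun n => (if p ∣ n + h then (F n - Av M K F n) ^ 2 else 0) * U n)
      (fun n => by simp only [hF n, hUN n, hAN n, hdv n])]
    refine sum_congr rfl fun n _ => ?_
    rw [Av_mul hU]
    congr 1
    unfold Av
    congr 1
    rw [sum_filter]
    refine sum_congr rfl fun t _ => ?_
    have h1 := hAt n t
    unfold Av at h1
    beta_reduce
    rw [h1]
    refine if_congr ?_ rfl rfl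
    rw [show n + M * t + h = n + h + M * t by ring]
  have e3 : ∑ n ∈ range N, (if p ∣ n + h then 0 else F n ^ 2) * U n =
      ∑ n ∈ range N, (∑ t ∈ range K \ (range K).filter (fun t => p ∣ (n + h) + M * t),
        F (n + M * t) ^ 2) / K * U n := by
    rw [← sum_Av (M := M) hK0
      (F := fun n => (if p ∣ n + h then 0 else F n ^ 2) * U n)
      (fun n => by simp only [hF n, hUN n, hdv n])]
    refine sum_congr rfl fun n _ => ?_
    rw [Av_mul hU]
    congr 1
    unfold Av
    congr 1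
    rw [← filter_not, sum_filter]
    refine sum_congr rfl fun t _ => ?_
    beta_reduce
    rw [show n + M * t + h = n + h + M * t by ring]
    split_ifs with h1
    · rfl
    · rfl
  rw [e1, e2, e3, mul_sum, mul_sum, ← sum_sub_distrib, mul_sum]
  refine sum_le_sum fun n _ => ?_
  have h1 := fib hp.two_le (fun t => F (n + M * t)) _ (filter_subset _ _)
    (fib_card hp hK hk hM (n + h)) hK0 hτ
  have h2 := mul_le_mul_of_nonneg_right h1 (div_nonneg (hU0 n) hKr.le)
  calc _ = _ := ?_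
    _ ≤ _ := h2
    _ = _ := ?_
  · ring
  · ring

end Pool.Agent.Y835.SB
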